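import Pool.Agent.V8H41.AS.Red

/-!
# From the subdigraphs to a satisfying assignment
-/

namespace Pool.Agent.V8H41.AS

open Pool.Agent.NPC

theorem Antistrong.exists_in {n : ℕ} {A : Set (ℕ × ℕ)} (h : Antistrong n A) {y : ℕ} (hy : y < n) :
    ∃ v, (v, y) ∈ A := by
  have hn := h.1
  obtain ⟨x, hx, hxy⟩ : ∃ x < n, x ≠ y := by
    by_cases h1 : y = 1
    · exact ⟨2, by omega, by omega⟩
    · exact ⟨1, by omega, by omega⟩
  by_contra hcon
  push Not at hcon
  have h1 := (h.2 x hx y hy hxy).closed (P := Set.univ) (Q := {w | w ≠ y}) (by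
    intro v w hvw
    simp only [Set.mem_univ, Set.mem_setOf_eq, true_iff]
    rintro rfl
    exact hcon v hvw) (Set.mem_univ _)
  exact h1 rfl

theorem Antistrong.exists_out {n : ℕ} {A : Set (ℕ × ℕ)} (h : Antistrong n A) {x : ℕ} (hx : x < n) :
    ∃ w, (x, w) ∈ A := by
  have hn := h.1
  obtain ⟨y, hy, hxy⟩ : ∃ y < n, x ≠ y := by
    by_cases h1 : x = 1
    · exact ⟨2, by omega, by omega⟩
    · exact ⟨1, by omega, by omega⟩
  by_contra hcon
  push Not at hcon
  have h1 := (h.2 x hx y hy hxy).closed (P := {x}) (Q := ∅) (by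
    intro v w hvw
    simp only [Set.mem_singleton_iff, Set.mem_empty_iff_false, iff_false]
    rintro rfl
    exact hcon w hvw) rfl
  exact h1

theorem Strong.exists_in {n : ℕ} {A : Set (ℕ × ℕ)} (h : Strong n A) (hn : 2 ≤ n) {y : ℕ}
    (hy : y < n) : ∃ v, (v, y) ∈ A := by
  obtain ⟨x, hx, hxy⟩ : ∃ x < n, x ≠ y := by
    by_cases h1 : y = 1
    · exact ⟨0, by omega, by omega⟩
    · exact ⟨1, by omega, by omega⟩
  have h1 := h x hx y hy
  rcases Relation.ReflTransGen.cases_tail h1 with h2 | ⟨c, _, h2⟩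
  · exact absurd h2.symm hxy
  · exact ⟨c, h2⟩

theorem Strong.exists_out {n : ℕ} {A : Set (ℕ × ℕ)} (h : Strong n A) (hn : 2 ≤ n) {x : ℕ}
    (hx : x < n) : ∃ w, (x, w) ∈ A := by
  obtain ⟨y, hy, hxy⟩ : ∃ y < n, x ≠ y := by
    by_cases h1 : x = 1
    · exact ⟨0, by omega, by omega⟩
    · exact ⟨1, by omega, by omega⟩
  have h1 := h x hx y hy
  rcases Relation.ReflTransGen.cases_head h1 with h2 | ⟨c, h2, _⟩
  · exact absurd h2 hxy
  · exact ⟨c, h2⟩

/-- Two elements distributed to two disjoint sets. -/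
theorem two_split {α : Type} {P Q : α → Prop} (hd : ∀ a, P a → ¬ Q a) {e1 e2 : α}
    (h : ∀ a, P a ∨ Q a → a = e1 ∨ a = e2) (hP : ∃ a, P a) (hQ : ∃ a, Q a) :
    (P e1 ∧ Q e2 ∧ (∀ a, P a → a = e1) ∧ ∀ a, Q a → a = e2) ∨
      (P e2 ∧ Q e1 ∧ (∀ a, P a → a = e2) ∧ ∀ a, Q a → a = e1) := by
  obtain ⟨a, ha⟩ := hP
  obtain ⟨b, hb⟩ := hQ
  rcases h a (Or.inl ha) with rfl | rfl
  · rcases h b (Or.inr hb) with rfl | rfl
    · exact absurd hb (hd _ ha)
    · left
      refine ⟨ha, hb, fun c hc => ?_, fun c hc => ?_⟩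
      · rcases h c (Or.inl hc) with rfl | rfl
        · rfl
        · exact absurd hb (hd _ hc)
      · rcases h c (Or.inr hc) with rfl | rfl
        · exact absurd hc (hd _ ha)
        · rfl
  · rcases h b (Or.inr hb) with rfl | rfl
    · right
      refine ⟨ha, hb, fun c hc => ?_, fun c hc => ?_⟩
      · rcases h c (Or.inl hc) with rfl | rfl
        · exact absurd hb (hd _ hc)
        · rfl
      · rcases h c (Or.inr hc) with rfl | rfl
        · rfl
        · exact absurd hc (hd _ ha)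
    · exact absurd hb (hd _ ha)

theorem nx_surj {m q : ℕ} (hm : 0 < m) (hq : q < cR m) : ∃ p < cR m, nx m p = q := by
  have hL : 0 < 6 * m := by omega
  have hx : q / (6 * m) < 3 * m := by
    rw [Nat.div_lt_iff_lt_mul hL]
    exact hq
  have hqd : q / (6 * m) * (6 * m) + q % (6 * m) = q := by
    rw [Nat.mul_comm]
    exact Nat.div_add_mod q (6 * m)
  have hi := Nat.mod_lt q hL
  generalize q / (6 * m) = x at hx hqd
  generalize q % (6 * m) = i at hi hqd
  rcases Nat.eq_zero_or_pos i with rfl | hi0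
  · refine ⟨x * (6 * m) + (6 * m - 1), lt_of_mul_add hx (by omega), ?_⟩
    rw [nx_last hm, ← hqd]
    rfl
  · refine ⟨x * (6 * m) + (i - 1), lt_of_mul_add hx (by omega), ?_⟩
    rw [nx_mul_add (by omega), ← hqd]
    congr 1
    omega

section

variable {φ : Cnf}

theorem inv_S (_h : Good φ) {v q : ℕ} (ha : ArcP φ v (4 + cR φ.length + q)) :
    v = 4 + q ∨ ∃ p < cR φ.length, nx φ.length p = q ∧ v = 4 + p := by
  rcases ha with ⟨_, h1, _⟩ | ⟨p, hp, _, h2⟩ | ⟨p, hp, hc, _, h2⟩ | ⟨p, hp, h2, h3⟩ |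
            ⟨p, hp, h2, h3⟩ | ⟨p, hp, h1, h2, h3⟩ | ⟨c, hc, h2, h3⟩
  · omega
  · omega
  · omega
  · rcases h3 with h3 | h3 | h3
    · omega
    · left
      omega
    · right
      exact ⟨p, hp, by omega, h2⟩
  · omega
  · omega
  · have := _h.cell_lt (nxc_lt hc)
    omega

theorem inv_cell (_h : Good φ) {v c' : ℕ} (hc' : c' < 3 * φ.length)
    (ha : ArcP φ v (4 + cell φ c')) :
    v = 0 ∨ ∃ c < 3 * φ.length, nxc c = c' ∧ v = 4 + cR φ.length + cn φ c := by
  have hlt := _h.cell_lt hc'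
  rcases ha with ⟨_, h1, _⟩ | ⟨p, hp, h1, h2⟩ | ⟨p, hp, hc, _, h2⟩ | ⟨p, hp, h2, h3⟩ |
            ⟨p, hp, h2, h3⟩ | ⟨p, hp, h1, h2, h3⟩ | ⟨c, hc, h2, h3⟩
  · omega
  · exact Or.inl h1
  · exact absurd (show p = cell φ c' by omega) (hc c' hc')
  · rcases h3 with h3 | h3 | h3 <;> omega
  · omega
  · omega
  · right
    exact ⟨c, hc, cell_inj (nxc_lt hc) hc' (by omega), h2⟩

theorem out_U {p w : ℕ} (h : Good φ) (hp : p < cR φ.length) (ha : ArcP φ (4 + p) w) :
    w = 0 ∨ w = 4 + cR φ.length + p ∨ w = 4 + cR φ.length + nx φ.length p := by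
  rcases ha with ⟨h1, _⟩ | ⟨q, hq, h1, h2⟩ | ⟨q, hq, hc, h1, h2⟩ | ⟨q, hq, h2, h3⟩ |
            ⟨q, hq, h2, h3⟩ | ⟨q, hq, h1, h2, h3⟩ | ⟨c, hc, h2, h3⟩
  · omega
  · omega
  · omega
  · have : p = q := by omega
    rw [this]
    exact h3
  · omega
  · omega
  · omega

theorem out_cn {c w : ℕ} (h : Good φ) (hc : c < 3 * φ.length)
    (ha : ArcP φ (4 + cR φ.length + cn φ c) w) : w = 0 ∨ w = 4 + cell φ (nxc c) := by
  rcases ha with ⟨h1, _⟩ | ⟨q, hq, h1, h2⟩ | ⟨q, hq, hc, h1, h2⟩ | ⟨q, hq, h2, h3⟩ |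
            ⟨q, hq, h2, h3⟩ | ⟨q, hq, h1, h2, h3⟩ | ⟨c', hc', h2, h3⟩
  · omega
  · omega
  · omega
  · omega
  · exact Or.inl h3
  · exact absurd (show q = cn φ c by omega) (h1 c hc)
  · right
    have : c = c' := cn_inj hc hc' (by omega)
    rw [this]
    exact h3

variable {A₁ A₂ : Set (ℕ × ℕ)}

/-- The situation: two arc-disjoint subdigraphs. -/
structure Two (φ : Cnf) (A₁ A₂ : Set (ℕ × ℕ)) : Prop where
  good : Good φ
  s1 : ∀ v w, (v, w) ∈ A₁ → ArcP φ v w
  s2 : ∀ v w, (v, w) ∈ A₂ → ArcP φ v w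
  dis : ∀ v w, (v, w) ∈ A₁ → (v, w) ∉ A₂
  anti : Antistrong (4 + 2 * cR φ.length) A₁
  strong : Strong (4 + 2 * cR φ.length) A₂

theorem Two.needy (T : Two φ A₁ A₂) {p : ℕ} (hp : p < cR φ.length) :
    ((4 + nx φ.length p, 4 + cR φ.length + nx φ.length p) ∈ A₁ ∧
      (4 + p, 4 + cR φ.length + nx φ.length p) ∈ A₂ ∧
      (∀ v, (v, 4 + cR φ.length + nx φ.length p) ∈ A₁ → v = 4 + nx φ.length p) ∧
      ∀ v, (v, 4 + cR φ.length + nx φ.length p) ∈ A₂ → v = 4 + p) ∨
    ((4 + p, 4 + cR φ.length + nx φ.length p) ∈ A₁ ∧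
      (4 + nx φ.length p, 4 + cR φ.length + nx φ.length p) ∈ A₂ ∧
      (∀ v, (v, 4 + cR φ.length + nx φ.length p) ∈ A₁ → v = 4 + p) ∧
      ∀ v, (v, 4 + cR φ.length + nx φ.length p) ∈ A₂ → v = 4 + nx φ.length p) := by
  have hlt := nx_lt T.good.pos hp
  refine two_split (P := fun v => (v, 4 + cR φ.length + nx φ.length p) ∈ A₁)
    (Q := fun v => (v, 4 + cR φ.length + nx φ.length p) ∈ A₂) (fun v => T.dis v _) ?_
    (T.anti.exists_in (by omega)) (T.strong.exists_in (by omega) (by omega))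
  intro v hv
  have hv' : ArcP φ v (4 + cR φ.length + nx φ.length p) := by
    rcases hv with hv | hv
    · exact T.s1 _ _ hv
    · exact T.s2 _ _ hv
  rcases inv_S T.good hv' with h1 | ⟨p', hp', h1, h2⟩
  · exact Or.inl h1
  · right
    rw [h2, nx_inj T.good.pos h1]

/-- Each needy vertex has at most one in-arc in each part. -/
theorem Two.uniq (T : Two φ A₁ A₂) {q : ℕ} (hq : q < cR φ.length) :
    (∀ v v', (v, 4 + cR φ.length + q) ∈ A₁ → (v', 4 + cR φ.length + q) ∈ A₁ → v = v') ∧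
      ∀ v v', (v, 4 + cR φ.length + q) ∈ A₂ → (v', 4 + cR φ.length + q) ∈ A₂ → v = v' := by
  obtain ⟨p, hp, rfl⟩ := nx_surj T.good.pos hq
  rcases T.needy hp with ⟨-, -, h1, h2⟩ | ⟨-, -, h1, h2⟩
  · exact ⟨fun v v' hv hv' => (h1 v hv).trans (h1 v' hv').symm,
      fun v v' hv hv' => (h2 v hv).trans (h2 v' hv').symm⟩
  · exact ⟨fun v v' hv hv' => (h1 v hv).trans (h1 v' hv').symm,
      fun v v' hv hv' => (h2 v hv).trans (h2 v' hv').symm⟩

/-- The arcs from the choice vertices to the hub belong to the antistrong part. -/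
theorem Two.hub (T : Two φ A₁ A₂) {p : ℕ} (hp : p < cR φ.length) : (4 + p, 0) ∈ A₁ := by
  by_contra hcon
  have hlt := nx_lt T.good.pos hp
  have ht := T.anti.2 (4 + p) (by omega) 0 (by omega) (by omega)
  have h1 := ht.closed (P := {4 + p}) (Q := {w | (4 + p, w) ∈ A₁}) (by
    intro v w hvw
    simp only [Set.mem_singleton_iff, Set.mem_setOf_eq]
    constructor
    · rintro rfl
      exact hvw
    · intro hw
      rcases out_U T.good hp (T.s1 _ _ hw) with rfl | rfl | rfl
      · exact absurd hw hcon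
      · exact (T.uniq hp).1 _ _ hvw hw
      · exact (T.uniq hlt).1 _ _ hvw hw) rfl
  exact hcon h1

/-- In the strong part, the choice vertex `p` points to the needy vertex `p`. -/
def St (φ : Cnf) (A₂ : Set (ℕ × ℕ)) (p : ℕ) : Prop := (4 + p, 4 + cR φ.length + p) ∈ A₂

theorem Two.choice (T : Two φ A₁ A₂) {p : ℕ} (hp : p < cR φ.length) :
    St φ A₂ p ∨ (4 + p, 4 + cR φ.length + nx φ.length p) ∈ A₂ := by
  obtain ⟨w, hw⟩ := T.strong.exists_out (by omega) (show 4 + p < 4 + 2 * cR φ.length by omega)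
  rcases out_U T.good hp (T.s2 _ _ hw) with rfl | rfl | rfl
  · exact absurd hw (T.dis _ _ (T.hub hp))
  · exact Or.inl hw
  · exact Or.inr hw

theorem Two.step (T : Two φ A₁ A₂) {p : ℕ} (hp : p < cR φ.length) (h : ¬ St φ A₂ p) :
    ¬ St φ A₂ (nx φ.length p) := by
  rcases T.choice hp with h1 | h1
  · exact absurd h1 h
  · intro h2
    have := (T.uniq (nx_lt T.good.pos hp)).2 _ _ h1 h2
    have := nx_ne T.good.pos p
    omega

theorem Two.ring (T : Two φ A₁ A₂) {x : ℕ} (hx : x < 3 * φ.length) {i : ℕ}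
    (hi : i < 6 * φ.length) (h : ¬ St φ A₂ (x * (6 * φ.length) + i)) :
    ∀ j < 6 * φ.length, ¬ St φ A₂ (x * (6 * φ.length) + j) := by
  have hm := T.good.pos
  have up : ∀ i, i < 6 * φ.length → ¬ St φ A₂ (x * (6 * φ.length) + i) →
      ∀ d, i + d < 6 * φ.length → ¬ St φ A₂ (x * (6 * φ.length) + (i + d)) := by
    intro i hi h d
    induction d with
    | zero =>
      intro _
      exact h
    | succ d ih =>
      intro hd
      have h1 := T.step (lt_of_mul_add hx (by omega)) (ih (by omega))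
      rw [nx_mul_add (by omega)] at h1
      exact h1
  have h1 := up i hi h (6 * φ.length - 1 - i) (by omega)
  rw [show i + (6 * φ.length - 1 - i) = 6 * φ.length - 1 by omega] at h1
  have h2 := T.step (lt_of_mul_add hx (by omega)) h1
  rw [nx_last hm] at h2
  intro j hj
  have h3 := up 0 (by omega) h2 j (by omega)
  rwa [Nat.zero_add] at h3

open Classical in
/-- The assignment. -/
noncomputable def asg (φ : Cnf) (A₂ : Set (ℕ × ℕ)) (x : ℕ) : Bool :=
  decide (St φ A₂ (x * (6 * φ.length) + 0))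

open Classical in
theorem asg_iff (x : ℕ) : asg φ A₂ x = true ↔ St φ A₂ (x * (6 * φ.length) + 0) := by
  unfold asg
  exact decide_eq_true_iff

/-- The choice vertex of a false literal points to the connector. -/
theorem Two.false_lit (T : Two φ A₁ A₂) {c : ℕ} (hc : c < 3 * φ.length)
    (h : asg φ A₂ (lit φ c).2 ≠ (lit φ c).1) :
    (4 + cell φ c, 4 + cR φ.length + cn φ c) ∈ A₂ := by
  have hx := T.good.lit_lt hc
  have hm := T.good.pos
  cases hs : (lit φ c).1 with
  | true =>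
    rw [hs] at h
    have h1 : ¬ St φ A₂ ((lit φ c).2 * (6 * φ.length) + 0) := by
      intro h2
      exact h ((asg_iff _).2 h2)
    have h2 := T.ring hx (by omega) h1 (2 * c) (by omega)
    have h3 := T.choice (lt_of_mul_add hx (show 2 * c < 6 * φ.length by omega))
    rw [nx_mul_add (by omega)] at h3
    have h4 := h3.resolve_left h2
    unfold cn cell
    rw [hs, if_pos rfl]
    rw [show (lit φ c).2 * (6 * φ.length) + 2 * c + 1 =
      (lit φ c).2 * (6 * φ.length) + (2 * c + 1) by omega]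
    exact h4
  | false =>
    rw [hs] at h
    have h1 : St φ A₂ ((lit φ c).2 * (6 * φ.length) + 0) := by
      rw [← asg_iff]
      cases hv : asg φ A₂ (lit φ c).2 with
      | true => rfl
      | false => exact absurd hv h
    have h2 : St φ A₂ ((lit φ c).2 * (6 * φ.length) + 2 * c) := by
      by_contra h2
      exact T.ring hx (by omega) h2 0 (by omega) h1
    unfold cn
    rw [hs, if_neg (by simp)]
    exact h2

/-- The arcs from the hub to the choice vertices of the positions belong to the antistrong part. -/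
theorem Two.entry (T : Two φ A₁ A₂) {c : ℕ} (hc : c < 3 * φ.length) :
    (0, 4 + cell φ (nxc c)) ∈ A₁ := by
  have hc' := nxc_lt hc
  have h1 := T.good.cell_lt hc'
  have h2 := T.good.cn_lt hc
  -- the out-arcs of the connector
  have ho := two_split (P := fun w => (4 + cR φ.length + cn φ c, w) ∈ A₁)
    (Q := fun w => (4 + cR φ.length + cn φ c, w) ∈ A₂) (fun w => T.dis _ w)
    (e1 := 0) (e2 := 4 + cell φ (nxc c)) (by
      rintro w (hw | hw)
      · exact out_cn T.good hc (T.s1 _ _ hw)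
      · exact out_cn T.good hc (T.s2 _ _ hw))
    (T.anti.exists_out (by omega)) (T.strong.exists_out (by omega) (by omega))
  have hi := two_split (P := fun v => (v, 4 + cell φ (nxc c)) ∈ A₁)
    (Q := fun v => (v, 4 + cell φ (nxc c)) ∈ A₂) (fun v => T.dis v _)
    (e1 := 0) (e2 := 4 + cR φ.length + cn φ c) (by
      intro v hv
      have hv' : ArcP φ v (4 + cell φ (nxc c)) := by
        rcases hv with hv | hv
        · exact T.s1 _ _ hv
        · exact T.s2 _ _ hv
      rcases inv_cell T.good hc' hv' with h3 | ⟨c', hc', h3, h4⟩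
      · exact Or.inl h3
      · right
        rw [h4, nxc_inj h3])
    (T.anti.exists_in (by omega)) (T.strong.exists_in (by omega) (by omega))
  rcases hi with ⟨hi, -⟩ | ⟨hi1, -, hi2, -⟩
  · exact hi
  · exfalso
    rcases ho with ⟨ho1, ho2, ho3, ho4⟩ | ⟨ho1, ho2, ho3, ho4⟩
    · have := ho3 _ hi1
      omega
    · have ht := T.anti.2 (4 + cR φ.length + cn φ c) (by omega) 0 (by omega) (by omega)
      have h5 := ht.closed (P := {4 + cR φ.length + cn φ c}) (Q := {4 + cell φ (nxc c)}) (by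
        intro v w hvw
        simp only [Set.mem_singleton_iff]
        constructor
        · rintro rfl
          exact ho3 _ hvw
        · rintro rfl
          exact hi2 _ hvw) rfl
      rw [Set.mem_singleton_iff] at h5
      omega

theorem Two.sat (T : Two φ A₁ A₂) : SAT3 φ := by
  refine ⟨asg φ A₂, ?_⟩
  intro cl hcl
  obtain ⟨K, hK, rfl⟩ := List.getElem_of_mem hcl
  by_contra hcon
  push Not at hcon
  obtain ⟨g0, g1, g2⟩ := hcon
  have hlit : ∀ c, c / 3 = K → asg φ A₂ (lit φ c).2 ≠ (lit φ c).1 := by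
    intro c hc
    unfold lit
    rw [hc, List.getD_eq_getElem _ _ hK]
    split_ifs
    · exact g0
    · exact g1
    · exact g2
  have hfl : ∀ c, c / 3 = K → (4 + cell φ c, 4 + cR φ.length + cn φ c) ∈ A₂ :=
    fun c hc => T.false_lit (by omega) (hlit c hc)
  -- the set without entering arcs
  have hback : ∀ v w, (v, w) ∈ A₂ →
      (∃ c, c / 3 = K ∧ (w = 4 + cell φ c ∨ w = 4 + cR φ.length + cn φ c)) →
      ∃ c, c / 3 = K ∧ (v = 4 + cell φ c ∨ v = 4 + cR φ.length + cn φ c) := by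
    rintro v w hvw ⟨c, hc, rfl | rfl⟩
    · have hc3 : c < 3 * φ.length := by omega
      rcases inv_cell T.good hc3 (T.s2 _ _ hvw) with rfl | ⟨c', hc', h1, rfl⟩
      · exfalso
        have h1 := T.entry (nxc_lt (nxc_lt hc3))
        rw [nxc3] at h1
        exact T.dis _ _ h1 hvw
      · exact ⟨c', by rw [← nxc_div c', h1, hc], Or.inr rfl⟩
    · have hc3 : c < 3 * φ.length := by omega
      exact ⟨c, hc, Or.inl ((T.uniq (T.good.cn_lt hc3)).2 _ _ hvw (hfl c hc))⟩
  have hreach := T.strong 0 (by omega) (4 + cell φ (3 * K)) (by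
    have := T.good.cell_lt (show 3 * K < 3 * φ.length by omega)
    omega)
  have hz : ∃ c, c / 3 = K ∧ (0 = 4 + cell φ c ∨ 0 = 4 + cR φ.length + cn φ c) := by
    refine Relation.ReflTransGen.head_induction_on
      (motive := fun a _ => ∃ c, c / 3 = K ∧ (a = 4 + cell φ c ∨ a = 4 + cR φ.length + cn φ c))
      hreach ?_ ?_
    · exact ⟨3 * K, by omega, Or.inl rfl⟩
    · intro a b hab _ ih
      exact hback a b hab ih
  obtain ⟨c, _, h1 | h1⟩ := hz <;> omega

end

theorem sat_of_hasPair {φ : Cnf} (h : Good φ) (hp : HasPair (red φ)) : SAT3 φ := by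
  obtain ⟨A₁, A₂, h1, h2, hd, ha, hs⟩ := hp
  rw [length_red] at ha hs
  refine Two.sat (A₁ := A₁) (A₂ := A₂) ⟨h, fun v w hvw => (mem_arcs h).1 (h1 hvw),
    fun v w hvw => (mem_arcs h).1 (h2 hvw), fun v w hvw hvw' => ?_, ha, hs⟩
  exact Set.disjoint_left.1 hd hvw hvw'

end Pool.Agent.V8H41.AS
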