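import Mathlib

/-!
# Antistrong and strong arc-disjoint spanning subdigraphs: definitions

Digraphs are given by adjacency lists: the vertices are the numbers `0, ..., n-1`, where `n` is the
number of lists, and the `v`-th list contains the heads of the arcs with tail `v`.
-/

namespace Pool.Agent.V8H41.AS

/-- `G` is the list of the adjacency lists of a finite digraph without loops and parallel arcs. -/
def IsDigraph (G : List (List ℕ)) : Prop :=
  ∀ v < G.length, (G.getD v []).Nodup ∧ ∀ w ∈ G.getD v [], w < G.length ∧ w ≠ v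

/-- The set of arcs. -/
def arcs (G : List (List ℕ)) : Set (ℕ × ℕ) := {a | a.2 ∈ G.getD a.1 []}

/-- The arc used between `v i` and `v (i + 1)` in a forward antidirected trail: it is used forward
if `i` is even and backward if `i` is odd. -/
def arcAt (v : ℕ → ℕ) (i : ℕ) : ℕ × ℕ := if i % 2 = 0 then (v i, v (i + 1)) else (v (i + 1), v i)

/-- The digraph with the set of arcs `A` has a forward antidirected trail from `x` to `y`: a walk
`v 0, v 1, ..., v (2 * k + 1)` from `x` to `y`, whose arcs are alternately used forward and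
backward, the first and the last one being used forward, and in which no arc is repeated. -/
def FwdTrail (A : Set (ℕ × ℕ)) (x y : ℕ) : Prop :=
  ∃ (k : ℕ) (v : ℕ → ℕ), v 0 = x ∧ v (2 * k + 1) = y ∧ (∀ i ≤ 2 * k, arcAt v i ∈ A) ∧
    ∀ i ≤ 2 * k, ∀ j ≤ 2 * k, arcAt v i = arcAt v j → i = j

/-- The digraph with the vertices `0, ..., n-1` and the set of arcs `A` is antistrong. -/
def Antistrong (n : ℕ) (A : Set (ℕ × ℕ)) : Prop :=
  3 ≤ n ∧ ∀ x < n, ∀ y < n, x ≠ y → FwdTrail A x y

/-- The digraph with the vertices `0, ..., n-1` and the set of arcs `A` is strongly connected. -/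
def Strong (n : ℕ) (A : Set (ℕ × ℕ)) : Prop :=
  ∀ x < n, ∀ y < n, Relation.ReflTransGen (fun a b => (a, b) ∈ A) x y

/-- The digraph `G` has two arc-disjoint spanning subdigraphs the first of which is antistrong and
the second of which is strongly connected. -/
def HasPair (G : List (List ℕ)) : Prop :=
  ∃ A₁ A₂ : Set (ℕ × ℕ), A₁ ⊆ arcs G ∧ A₂ ⊆ arcs G ∧ Disjoint A₁ A₂ ∧
    Antistrong G.length A₁ ∧ Strong G.length A₂

end Pool.Agent.V8H41.AS
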