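import Pool.Agent.V8H41.AS.Red

/-!
# From a satisfying assignment to the subdigraphs
-/

namespace Pool.Agent.V8H41.AS

open Pool.Agent.NPC

/-- The arcs of the strong part. -/
def D2 (φ : Cnf) (τ : ℕ → Bool) : Set (ℕ × ℕ) := {a |
  (a.1 < 4 ∧ a.2 = (a.1 + 1) % 4) ∨
  (∃ p < cR φ.length, (∀ c < 3 * φ.length, p ≠ cell φ c) ∧ a.1 = 0 ∧ a.2 = 4 + p) ∨
  (∃ p < cR φ.length, τ (p / (6 * φ.length)) = true ∧ a.1 = 4 + p ∧
    a.2 = 4 + cR φ.length + p) ∨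
  (∃ p < cR φ.length, τ (p / (6 * φ.length)) = false ∧ a.1 = 4 + p ∧
    a.2 = 4 + cR φ.length + nx φ.length p) ∨
  (∃ p < cR φ.length, (∀ c < 3 * φ.length, p ≠ cn φ c) ∧ a.1 = 4 + cR φ.length + p ∧ a.2 = 1) ∨
  (∃ c < 3 * φ.length, a.1 = 4 + cR φ.length + cn φ c ∧ a.2 = 4 + cell φ (nxc c))}

theorem mem_D2 {φ : Cnf} {τ : ℕ → Bool} {v w : ℕ} : (v, w) ∈ D2 φ τ ↔
  (v < 4 ∧ w = (v + 1) % 4) ∨
  (∃ p < cR φ.length, (∀ c < 3 * φ.length, p ≠ cell φ c) ∧ v = 0 ∧ w = 4 + p) ∨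
  (∃ p < cR φ.length, τ (p / (6 * φ.length)) = true ∧ v = 4 + p ∧
    w = 4 + cR φ.length + p) ∨
  (∃ p < cR φ.length, τ (p / (6 * φ.length)) = false ∧ v = 4 + p ∧
    w = 4 + cR φ.length + nx φ.length p) ∨
  (∃ p < cR φ.length, (∀ c < 3 * φ.length, p ≠ cn φ c) ∧ v = 4 + cR φ.length + p ∧ w = 1) ∨
  (∃ c < 3 * φ.length, v = 4 + cR φ.length + cn φ c ∧ w = 4 + cell φ (nxc c)) := Iff.rfl

theorem cell_even (φ : Cnf) (c : ℕ) : cell φ c % 2 = 0 := by
  unfold cell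
  have : (lit φ c).2 * (6 * φ.length) = 2 * ((lit φ c).2 * (3 * φ.length)) := by ring
  omega

theorem nx_parity {m : ℕ} (hm : 0 < m) (p : ℕ) : nx m p % 2 ≠ p % 2 := by
  unfold nx
  split_ifs with h
  · have := Nat.le_of_dvd (by omega) (Nat.dvd_of_mod_eq_zero h)
    omega
  · omega

theorem nx_div {m : ℕ} (hm : 0 < m) (p : ℕ) : nx m p / (6 * m) = p / (6 * m) := by
  have hL : 0 < 6 * m := by omega
  have hqd : p / (6 * m) * (6 * m) + p % (6 * m) = p := by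
    rw [Nat.mul_comm]
    exact Nat.div_add_mod p (6 * m)
  have hi := Nat.mod_lt p hL
  have hdiv : ∀ x i, i < 6 * m → (x * (6 * m) + i) / (6 * m) = x := by
    intro x i hi
    rw [Nat.mul_comm, Nat.mul_add_div hL, Nat.div_eq_of_lt hi]
    rfl
  generalize p / (6 * m) = x at hqd
  generalize p % (6 * m) = i at hi hqd
  rw [← hqd]
  by_cases hil : i + 1 < 6 * m
  · rw [nx_mul_add hil, hdiv _ _ hil]
  · have : i = 6 * m - 1 := by omega
    subst this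
    rw [nx_last hm]
    have := hdiv x 0 hL
    rwa [Nat.add_zero] at this

theorem div_cell {φ : Cnf} {c : ℕ} (hc : c < 3 * φ.length) :
    cell φ c / (6 * φ.length) = (lit φ c).2 := by
  unfold cell
  rw [Nat.mul_comm, Nat.mul_add_div (by omega), Nat.div_eq_of_lt (by omega)]
  rfl

theorem div_cell' {φ : Cnf} {c : ℕ} (hc : c < 3 * φ.length) :
    (cell φ c + 1) / (6 * φ.length) = (lit φ c).2 := by
  unfold cell
  rw [Nat.add_assoc, Nat.mul_comm, Nat.mul_add_div (by omega), Nat.div_eq_of_lt (by omega)]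
  rfl

theorem nx_cell {φ : Cnf} {c : ℕ} (hc : c < 3 * φ.length) :
    nx φ.length (cell φ c) = cell φ c + 1 := by
  unfold cell
  rw [nx_mul_add (by omega)]
  rfl

theorem cof_cell' {φ : Cnf} {c : ℕ} (hc : c < 3 * φ.length) :
    cof φ.length (cell φ c + 1) = c := by
  unfold cof cell
  rw [Nat.add_assoc, Nat.mul_comm, Nat.mul_add_mod, Nat.mod_eq_of_lt (by omega)]
  omega

theorem cell_succ_lt {φ : Cnf} (h : Good φ) {c : ℕ} (hc : c < 3 * φ.length) :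
    cell φ c + 1 < cR φ.length := by
  unfold cell
  rw [Nat.add_assoc]
  exact lt_of_mul_add (h.lit_lt hc) (by omega)

theorem nx_surj' {m q : ℕ} (hm : 0 < m) (hq : q < cR m) : ∃ p < cR m, nx m p = q := by
  have hL : 0 < 6 * m := by omega
  have hx : q / (6 * m) < 3 * m := by
    rw [Nat.div_lt_iff_lt_mul hL]
    exact hq
  have hqd : q / (6 * m) * (6 * m) + q % (6 * m) = q := by
    rw [Nat.mul_comm]
    exact Nat.div_add_mod q (6 * m)
  have hi := Nat.mod_lt q hL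
  generalize q / (6 * m) = x at hx hqd
  generalize q % (6 * m) = i at hi hqd
  rcases Nat.eq_zero_or_pos i with rfl | hi0
  · refine ⟨x * (6 * m) + (6 * m - 1), lt_of_mul_add hx (by omega), ?_⟩
    rw [nx_last hm, ← hqd]
    rfl
  · refine ⟨x * (6 * m) + (i - 1), lt_of_mul_add hx (by omega), ?_⟩
    rw [nx_mul_add (by omega), ← hqd]
    congr 1
    omega

theorem D2_sub {φ : Cnf} {τ : ℕ → Bool} {v w : ℕ} (ha : (v, w) ∈ D2 φ τ) :
    ArcP φ v w := by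
  rw [mem_D2] at ha
  rcases ha with ⟨h1, h2⟩ | ⟨p, hp, _, h1, h2⟩ | ⟨p, hp, _, h1, h2⟩ | ⟨p, hp, _, h1, h2⟩ |
    ⟨p, hp, h0, h1, h2⟩ | ⟨c, hc, h1, h2⟩
  · exact Or.inl ⟨h1, by omega, by omega⟩
  · exact Or.inr (Or.inl ⟨p, hp, h1, h2⟩)
  · exact Or.inr (Or.inr (Or.inr (Or.inl ⟨p, hp, h1, Or.inr (Or.inl h2)⟩)))
  · exact Or.inr (Or.inr (Or.inr (Or.inl ⟨p, hp, h1, Or.inr (Or.inr h2)⟩)))
  · exact Or.inr (Or.inr (Or.inr (Or.inr (Or.inr (Or.inl ⟨p, hp, h0, h1, h2⟩)))))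
  · exact Or.inr (Or.inr (Or.inr (Or.inr (Or.inr (Or.inr ⟨c, hc, h1, h2⟩)))))

section

variable {φ : Cnf} {τ : ℕ → Bool}

/-- Reachability in the strong part. -/
abbrev Rch (φ : Cnf) (τ : ℕ → Bool) : ℕ → ℕ → Prop :=
  Relation.ReflTransGen (fun a b => (a, b) ∈ D2 φ τ)

theorem one {v w : ℕ} (h : (v, w) ∈ D2 φ τ) : Rch φ τ v w :=
  Relation.ReflTransGen.single (r := fun a b => (a, b) ∈ D2 φ τ) h

theorem rch_hub {i : ℕ} (hi : i < 4) : Rch φ τ 0 i ∧ Rch φ τ i 0 := by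
  have e : ∀ i, i < 4 → Rch φ τ i ((i + 1) % 4) := fun i hi =>
    one (mem_D2.2 (Or.inl ⟨hi, rfl⟩))
  have e0 : Rch φ τ 0 1 := e 0 (by omega)
  have e1 : Rch φ τ 1 2 := e 1 (by omega)
  have e2 : Rch φ τ 2 3 := e 2 (by omega)
  have e3 : Rch φ τ 3 0 := e 3 (by omega)
  obtain rfl | rfl | rfl | rfl : i = 0 ∨ i = 1 ∨ i = 2 ∨ i = 3 := by omega
  · exact ⟨Relation.ReflTransGen.refl, Relation.ReflTransGen.refl⟩
  · exact ⟨e0, e1.trans (e2.trans e3)⟩
  · exact ⟨e0.trans e1, e2.trans e3⟩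
  · exact ⟨(e0.trans e1).trans e2, e3⟩

/-- The literal at the position `c` is true. -/
def Tr (φ : Cnf) (τ : ℕ → Bool) (c : ℕ) : Prop := τ (lit φ c).2 = (lit φ c).1

theorem cn_true {c : ℕ} (hs : (lit φ c).1 = true) : cn φ c = cell φ c + 1 := by
  unfold cn
  rw [hs, if_pos rfl]

theorem cn_false {c : ℕ} (hs : (lit φ c).1 = false) : cn φ c = cell φ c := by
  unfold cn
  rw [hs, if_neg (by simp), Nat.add_zero]

theorem spacer_of_odd {p : ℕ} (hp : p % 2 = 1) : ∀ c < 3 * φ.length, p ≠ cell φ c := by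
  rintro c _ rfl
  have := cell_even φ c
  omega

theorem arc_spacer {p : ℕ} (hp : p < cR φ.length) (h : ∀ c < 3 * φ.length, p ≠ cell φ c) :
    (0, 4 + p) ∈ D2 φ τ :=
  mem_D2.2 (Or.inr (Or.inl ⟨p, hp, h, rfl, rfl⟩))

theorem arc_true {p : ℕ} (hp : p < cR φ.length) (h : τ (p / (6 * φ.length)) = true) :
    (4 + p, 4 + cR φ.length + p) ∈ D2 φ τ :=
  mem_D2.2 (Or.inr (Or.inr (Or.inl ⟨p, hp, h, rfl, rfl⟩)))

theorem arc_false {p : ℕ} (hp : p < cR φ.length) (h : τ (p / (6 * φ.length)) = false) :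
    (4 + p, 4 + cR φ.length + nx φ.length p) ∈ D2 φ τ :=
  mem_D2.2 (Or.inr (Or.inr (Or.inr (Or.inl ⟨p, hp, h, rfl, rfl⟩))))

theorem arc_root {p : ℕ} (hp : p < cR φ.length) (h : ∀ c < 3 * φ.length, p ≠ cn φ c) :
    (4 + cR φ.length + p, 1) ∈ D2 φ τ :=
  mem_D2.2 (Or.inr (Or.inr (Or.inr (Or.inr (Or.inl ⟨p, hp, h, rfl, rfl⟩)))))

theorem arc_cn {c : ℕ} (hc : c < 3 * φ.length) :
    (4 + cR φ.length + cn φ c, 4 + cell φ (nxc c)) ∈ D2 φ τ :=
  mem_D2.2 (Or.inr (Or.inr (Or.inr (Or.inr (Or.inr ⟨c, hc, rfl, rfl⟩)))))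

/-- The connector of a true literal is reached through a spacer. -/
theorem from_conn (h : Good φ) {c : ℕ} (hc : c < 3 * φ.length) (ht : Tr φ τ c) :
    Rch φ τ 0 (4 + cR φ.length + cn φ c) := by
  unfold Tr at ht
  cases hs : (lit φ c).1 with
  | true =>
    rw [hs] at ht
    rw [cn_true hs]
    have h1 : (cell φ c + 1) % 2 = 1 := by
      have := cell_even φ c
      omega
    have hlt := cell_succ_lt h hc
    exact (one (arc_spacer hlt (spacer_of_odd h1))).tail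
      (arc_true hlt (by rw [div_cell' hc, ht]))
  | false =>
    rw [hs] at ht
    rw [cn_false hs]
    obtain ⟨p, hp, hpc⟩ := nx_surj' h.pos (h.cell_lt hc)
    have h1 : p % 2 = 1 := by
      have h2 := nx_parity h.pos p
      rw [hpc, cell_even] at h2
      omega
    have h3 := arc_false (τ := τ) hp (by rw [← nx_div h.pos, hpc, div_cell hc, ht])
    rw [hpc] at h3
    exact (one (arc_spacer hp (spacer_of_odd h1))).tail h3

/-- The choice vertex of a false literal points to the connector. -/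
theorem arc_of_false (h : Good φ) {c : ℕ} (hc : c < 3 * φ.length) (ht : ¬ Tr φ τ c) :
    (4 + cell φ c, 4 + cR φ.length + cn φ c) ∈ D2 φ τ := by
  unfold Tr at ht
  cases hs : (lit φ c).1 with
  | true =>
    rw [hs] at ht
    rw [cn_true hs, ← nx_cell hc]
    refine arc_false (h.cell_lt hc) ?_
    rw [div_cell hc]
    simpa using ht
  | false =>
    rw [hs] at ht
    rw [cn_false hs]
    refine arc_true (h.cell_lt hc) ?_
    rw [div_cell hc]
    simpa using ht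

/-- From the choice vertex of a true literal one reaches the hub `1`. -/
theorem to_of_true (h : Good φ) {c : ℕ} (hc : c < 3 * φ.length) (ht : Tr φ τ c) :
    Rch φ τ (4 + cell φ c) 1 := by
  unfold Tr at ht
  cases hs : (lit φ c).1 with
  | true =>
    rw [hs] at ht
    refine (one (arc_true (h.cell_lt hc) ?_)).tail
      (arc_root (h.cell_lt hc) ?_)
    · rw [div_cell hc, ht]
    · intro c' hc' he
      have h1 := cof_cell hc
      rw [he, cof_cn hc'] at h1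
      subst h1
      rw [cn_true hs] at he
      omega
  | false =>
    rw [hs] at ht
    have hlt := cell_succ_lt h hc
    have h1 := arc_false (τ := τ) (h.cell_lt hc) (by rw [div_cell hc, ht])
    rw [nx_cell hc] at h1
    refine (one h1).tail (arc_root hlt ?_)
    intro c' hc' he
    have h1 := cof_cell' hc
    rw [he, cof_cn hc'] at h1
    subst h1
    rw [cn_false hs] at he
    omega

/-- Every clause has a true literal. -/
theorem three (hτ : ∀ c ∈ φ, τ c.1.2 = c.1.1 ∨ τ c.2.1.2 = c.2.1.1 ∨ τ c.2.2.2 = c.2.2.1)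
    {c : ℕ} (hc : c < 3 * φ.length) : Tr φ τ c ∨ Tr φ τ (nxc c) ∨ Tr φ τ (nxc (nxc c)) := by
  have hj : c / 3 < φ.length := by omega
  have h1 := hτ _ (List.getElem_mem hj)
  have e : ∀ d, d / 3 = c / 3 → (d % 3 = 0 → (Tr φ τ d ↔ τ φ[c / 3].1.2 = φ[c / 3].1.1)) ∧
      (d % 3 = 1 → (Tr φ τ d ↔ τ φ[c / 3].2.1.2 = φ[c / 3].2.1.1)) ∧
      (d % 3 = 2 → (Tr φ τ d ↔ τ φ[c / 3].2.2.2 = φ[c / 3].2.2.1)) := by
    intro d hd
    unfold Tr lit
    rw [hd, List.getD_eq_getElem _ _ hj]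
    refine ⟨fun hm => ?_, fun hm => ?_, fun hm => ?_⟩
    · rw [if_pos hm]
    · rw [if_neg (by omega), if_pos hm]
    · rw [if_neg (by omega), if_neg (by omega)]
  have e0 := e c rfl
  have e1 := e (nxc c) (nxc_div c)
  have e2 := e (nxc (nxc c)) (by rw [nxc_div, nxc_div])
  have hr : c % 3 = 0 ∨ c % 3 = 1 ∨ c % 3 = 2 := by omega
  rcases hr with hr | hr | hr
  · have m1 : nxc c % 3 = 1 := by unfold nxc; split_ifs <;> omega
    have m2 : nxc (nxc c) % 3 = 2 := by unfold nxc; split_ifs <;> omega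
    rw [e0.1 hr, e1.2.1 m1, e2.2.2 m2]
    exact h1
  · have m1 : nxc c % 3 = 2 := by unfold nxc; split_ifs <;> omega
    have m2 : nxc (nxc c) % 3 = 0 := by unfold nxc; split_ifs <;> omega
    rw [e0.2.1 hr, e1.2.2 m1, e2.1 m2]
    rcases h1 with h1 | h1 | h1
    · exact Or.inr (Or.inr h1)
    · exact Or.inl h1
    · exact Or.inr (Or.inl h1)
  · have m1 : nxc c % 3 = 0 := by unfold nxc; split_ifs <;> omega
    have m2 : nxc (nxc c) % 3 = 1 := by unfold nxc; split_ifs <;> omega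
    rw [e0.2.2 hr, e1.1 m1, e2.2.1 m2]
    rcases h1 with h1 | h1 | h1
    · exact Or.inr (Or.inl h1)
    · exact Or.inr (Or.inr h1)
    · exact Or.inl h1

variable (hτ : ∀ c ∈ φ, τ c.1.2 = c.1.1 ∨ τ c.2.1.2 = c.2.1.1 ∨ τ c.2.2.2 = c.2.2.1)

include hτ

theorem to_cell (h : Good φ) {c : ℕ} (hc : c < 3 * φ.length) : Rch φ τ (4 + cell φ c) 1 := by
  have stp : ∀ c < 3 * φ.length, Rch φ τ (4 + cell φ (nxc c)) 1 → Rch φ τ (4 + cell φ c) 1 := by
    intro c hc h1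
    by_cases ht : Tr φ τ c
    · exact to_of_true h hc ht
    · exact ((one (arc_of_false h hc ht)).tail (arc_cn hc)).trans h1
  rcases three hτ hc with ht | ht | ht
  · exact to_of_true h hc ht
  · exact stp c hc (to_of_true h (nxc_lt hc) ht)
  · exact stp c hc (stp _ (nxc_lt hc) (to_of_true h (nxc_lt (nxc_lt hc)) ht))

theorem from_cell (h : Good φ) {c : ℕ} (hc : c < 3 * φ.length) : Rch φ τ 0 (4 + cell φ c) := by
  have base : ∀ c < 3 * φ.length, Tr φ τ c → Rch φ τ 0 (4 + cell φ (nxc c)) := fun c hc ht =>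
    (from_conn h hc ht).tail (arc_cn hc)
  have stp : ∀ c < 3 * φ.length, Rch φ τ 0 (4 + cell φ c) → Rch φ τ 0 (4 + cell φ (nxc c)) := by
    intro c hc h1
    by_cases ht : Tr φ τ c
    · exact base c hc ht
    · exact (h1.tail (arc_of_false h hc ht)).tail (arc_cn hc)
  have h1 := nxc_lt hc
  have h2 := nxc_lt h1
  have e := nxc3 c
  rcases three hτ hc with ht | ht | ht
  · have g := stp _ h2 (stp _ h1 (base _ hc ht))
    rwa [e] at g
  · have g := stp _ h2 (base _ h1 ht)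
    rwa [e] at g
  · have g := base _ h2 ht
    rwa [e] at g

theorem from_U (h : Good φ) {p : ℕ} (hp : p < cR φ.length) : Rch φ τ 0 (4 + p) := by
  by_cases hc : ∃ c < 3 * φ.length, p = cell φ c
  · obtain ⟨c, hc, rfl⟩ := hc
    exact from_cell hτ h hc
  · push Not at hc
    exact one (arc_spacer hp hc)

theorem to_S (h : Good φ) {q : ℕ} (hq : q < cR φ.length) :
    Rch φ τ (4 + cR φ.length + q) 1 := by
  by_cases hc : ∃ c < 3 * φ.length, q = cn φ c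
  · obtain ⟨c, hc, rfl⟩ := hc
    exact (one (arc_cn hc)).trans (to_cell hτ h (nxc_lt hc))
  · push Not at hc
    exact one (arc_root hq hc)

theorem to_U (h : Good φ) {p : ℕ} (hp : p < cR φ.length) : Rch φ τ (4 + p) 1 := by
  cases ht : τ (p / (6 * φ.length)) with
  | true => exact (one (arc_true hp ht)).trans (to_S hτ h hp)
  | false =>
    exact (one (arc_false hp ht)).trans (to_S hτ h (nx_lt h.pos hp))

theorem from_S (h : Good φ) {q : ℕ} (hq : q < cR φ.length) :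
    Rch φ τ 0 (4 + cR φ.length + q) := by
  cases ht : τ (q / (6 * φ.length)) with
  | true => exact (from_U hτ h hq).tail (arc_true hq ht)
  | false =>
    obtain ⟨p, hp, rfl⟩ := nx_surj' h.pos hq
    rw [nx_div h.pos] at ht
    exact (from_U hτ h hp).tail (arc_false hp ht)

theorem strong_D2 (h : Good φ) : Strong (4 + 2 * cR φ.length) (D2 φ τ) := by
  have h10 : Rch φ τ 1 0 := (rch_hub (by omega)).2
  have cases3 : ∀ x, x < 4 + 2 * cR φ.length → Rch φ τ 0 x ∧ Rch φ τ x 0 := by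
    intro x hx
    by_cases h4 : x < 4
    · exact rch_hub h4
    · by_cases hR : x < 4 + cR φ.length
      · obtain ⟨p, hp, rfl⟩ : ∃ p < cR φ.length, x = 4 + p := ⟨x - 4, by omega, by omega⟩
        exact ⟨from_U hτ h hp, (to_U hτ h hp).trans h10⟩
      · obtain ⟨p, hp, rfl⟩ : ∃ p < cR φ.length, x = 4 + cR φ.length + p :=
          ⟨x - 4 - cR φ.length, by omega, by omega⟩
        exact ⟨from_S hτ h hp, (to_S hτ h hp).trans h10⟩
  intro x hx y hy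
  exact (cases3 x hx).2.trans (cases3 y hy).1

omit hτ

/-- The arcs of the antistrong part. -/
def D1 (φ : Cnf) (τ : ℕ → Bool) : Set (ℕ × ℕ) := {a | ArcP φ a.1 a.2 ∧ a ∉ D2 φ τ}

theorem mem_D1 {v w : ℕ} : (v, w) ∈ D1 φ τ ↔ ArcP φ v w ∧ (v, w) ∉ D2 φ τ := Iff.rfl

theorem d1_hub {v w : ℕ} (hv : v < 4) (hw : w < 4) (h1 : v ≠ w) (h2 : w ≠ (v + 1) % 4) :
    (v, w) ∈ D1 φ τ := by
  refine mem_D1.2 ⟨Or.inl ⟨hv, hw, h1⟩, ?_⟩
  rw [mem_D2]
  rintro (⟨h3, h4⟩ | ⟨p, hp, _, h3, h4⟩ | ⟨p, hp, _, h3, h4⟩ | ⟨p, hp, _, h3, h4⟩ |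
    ⟨p, hp, h0, h3, h4⟩ | ⟨c, hc, h3, h4⟩) <;> omega

theorem d1_U0 {p : ℕ} (hp : p < cR φ.length) : (4 + p, 0) ∈ D1 φ τ := by
  refine mem_D1.2 ⟨Or.inr (Or.inr (Or.inr (Or.inl ⟨p, hp, rfl, Or.inl rfl⟩))), ?_⟩
  rw [mem_D2]
  rintro (⟨h3, h4⟩ | ⟨p, hp, _, h3, h4⟩ | ⟨p, hp, _, h3, h4⟩ | ⟨p, hp, _, h3, h4⟩ |
    ⟨p, hp, h0, h3, h4⟩ | ⟨c, hc, h3, h4⟩) <;> omega

theorem d1_S0 {p : ℕ} (hp : p < cR φ.length) : (4 + cR φ.length + p, 0) ∈ D1 φ τ := by
  refine mem_D1.2 ⟨Or.inr (Or.inr (Or.inr (Or.inr (Or.inl ⟨p, hp, rfl, rfl⟩)))), ?_⟩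
  rw [mem_D2]
  rintro (⟨h3, h4⟩ | ⟨p, hp, _, h3, h4⟩ | ⟨p, hp, _, h3, h4⟩ | ⟨p, hp, _, h3, h4⟩ |
    ⟨p, hp, h0, h3, h4⟩ | ⟨c, hc, h3, h4⟩) <;> omega

theorem d1_cell (h : Good φ) {c : ℕ} (hc : c < 3 * φ.length) : (0, 4 + cell φ c) ∈ D1 φ τ := by
  have hlt := h.cell_lt hc
  refine mem_D1.2 ⟨Or.inr (Or.inl ⟨_, hlt, rfl, rfl⟩), ?_⟩
  rw [mem_D2]
  rintro (⟨h3, h4⟩ | ⟨p, hp, h5, h3, h4⟩ | ⟨p, hp, _, h3, h4⟩ | ⟨p, hp, _, h3, h4⟩ |
    ⟨p, hp, h0, h3, h4⟩ | ⟨c, hc, h3, h4⟩)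
  · omega
  · exact h5 c hc (by omega)
  all_goals omega

theorem d1_spacer {p : ℕ} (hp : p < cR φ.length) (h : ∀ c < 3 * φ.length, p ≠ cell φ c) :
    (1, 4 + p) ∈ D1 φ τ := by
  refine mem_D1.2 ⟨Or.inr (Or.inr (Or.inl ⟨p, hp, h, rfl, rfl⟩)), ?_⟩
  rw [mem_D2]
  rintro (⟨h3, h4⟩ | ⟨p, hp, h5, h3, h4⟩ | ⟨p, hp, _, h3, h4⟩ | ⟨p, hp, _, h3, h4⟩ |
    ⟨p, hp, h0, h3, h4⟩ | ⟨c, hc, h3, h4⟩) <;> omega

theorem d1_false {p : ℕ} (h : Good φ) (hp : p < cR φ.length)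
    (ht : τ (p / (6 * φ.length)) = false) : (4 + p, 4 + cR φ.length + p) ∈ D1 φ τ := by
  refine mem_D1.2 ⟨Or.inr (Or.inr (Or.inr (Or.inl ⟨p, hp, rfl, Or.inr (Or.inl rfl)⟩))), ?_⟩
  rw [mem_D2]
  rintro (⟨h3, h4⟩ | ⟨p, hp, h5, h3, h4⟩ | ⟨q, hq, h5, h3, h4⟩ | ⟨q, hq, _, h3, h4⟩ |
    ⟨p, hp, h0, h3, h4⟩ | ⟨c, hc, h3, h4⟩)
  · omega
  · omega
  · have : p = q := by omega
    subst this
    rw [ht] at h5
    exact absurd h5 (by simp)
  · have : p = q := by omega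
    subst this
    have := nx_ne h.pos p
    omega
  · omega
  · omega

theorem d1_true {p : ℕ} (h : Good φ) (hp : p < cR φ.length)
    (ht : τ (p / (6 * φ.length)) = true) :
    (4 + p, 4 + cR φ.length + nx φ.length p) ∈ D1 φ τ := by
  refine mem_D1.2 ⟨Or.inr (Or.inr (Or.inr (Or.inl ⟨p, hp, rfl, Or.inr (Or.inr rfl)⟩))), ?_⟩
  rw [mem_D2]
  rintro (⟨h3, h4⟩ | ⟨p, hp, h5, h3, h4⟩ | ⟨q, hq, h5, h3, h4⟩ | ⟨q, hq, h5, h3, h4⟩ |
    ⟨p, hp, h0, h3, h4⟩ | ⟨c, hc, h3, h4⟩)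
  · omega
  · omega
  · have : p = q := by omega
    subst this
    have := nx_ne h.pos p
    omega
  · have : p = q := by omega
    subst this
    rw [ht] at h5
    exact absurd h5 (by simp)
  · omega
  · omega

theorem antistrong_D1 (h : Good φ) : Antistrong (4 + 2 * cR φ.length) (D1 φ τ) := by
  have l : ∀ {v w : ℕ}, (v, w) ∈ D1 φ τ → (BG (D1 φ τ)).Reachable (Sum.inl v) (Sum.inr w) :=
    fun hvw => (adj_lr.2 hvw).reachable
  have r : ∀ {v w : ℕ}, (v, w) ∈ D1 φ τ → (BG (D1 φ τ)).Reachable (Sum.inr w) (Sum.inl v) :=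
    fun hvw => (adj_rl.2 hvw).reachable
  have a03 : (0, 3) ∈ D1 φ τ := d1_hub (by omega) (by omega) (by omega) (by omega)
  have a13 : (1, 3) ∈ D1 φ τ := d1_hub (by omega) (by omega) (by omega) (by omega)
  have a10 : (1, 0) ∈ D1 φ τ := d1_hub (by omega) (by omega) (by omega) (by omega)
  have a20 : (2, 0) ∈ D1 φ τ := d1_hub (by omega) (by omega) (by omega) (by omega)
  have a21 : (2, 1) ∈ D1 φ τ := d1_hub (by omega) (by omega) (by omega) (by omega)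
  have a31 : (3, 1) ∈ D1 φ τ := d1_hub (by omega) (by omega) (by omega) (by omega)
  have a32 : (3, 2) ∈ D1 φ τ := d1_hub (by omega) (by omega) (by omega) (by omega)
  have r3 : (BG (D1 φ τ)).Reachable (Sum.inr 3) (Sum.inl 0) := r a03
  have l1 : (BG (D1 φ τ)).Reachable (Sum.inl 1) (Sum.inl 0) := (l a13).trans r3
  have r0 : (BG (D1 φ τ)).Reachable (Sum.inr 0) (Sum.inl 0) := (r a10).trans l1
  have l2 : (BG (D1 φ τ)).Reachable (Sum.inl 2) (Sum.inl 0) := (l a20).trans r0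
  have r1 : (BG (D1 φ τ)).Reachable (Sum.inr 1) (Sum.inl 0) := (r a21).trans l2
  have l3 : (BG (D1 φ τ)).Reachable (Sum.inl 3) (Sum.inl 0) := (l a31).trans r1
  have r2 : (BG (D1 φ τ)).Reachable (Sum.inr 2) (Sum.inl 0) := (r a32).trans l3
  refine antistrong_of (by omega) ?_ ?_
  · intro v hv
    by_cases h4 : v < 4
    · obtain rfl | rfl | rfl | rfl : v = 0 ∨ v = 1 ∨ v = 2 ∨ v = 3 := by omega
      · exact SimpleGraph.Reachable.refl _
      · exact l1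
      · exact l2
      · exact l3
    · by_cases hR : v < 4 + cR φ.length
      · obtain ⟨p, hp, rfl⟩ : ∃ p < cR φ.length, v = 4 + p := ⟨v - 4, by omega, by omega⟩
        exact (l (d1_U0 hp)).trans r0
      · obtain ⟨p, hp, rfl⟩ : ∃ p < cR φ.length, v = 4 + cR φ.length + p :=
          ⟨v - 4 - cR φ.length, by omega, by omega⟩
        exact (l (d1_S0 hp)).trans r0
  · intro v hv
    by_cases h4 : v < 4
    · obtain rfl | rfl | rfl | rfl : v = 0 ∨ v = 1 ∨ v = 2 ∨ v = 3 := by omega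
      · exact r0
      · exact r1
      · exact r2
      · exact r3
    · by_cases hR : v < 4 + cR φ.length
      · obtain ⟨p, hp, rfl⟩ : ∃ p < cR φ.length, v = 4 + p := ⟨v - 4, by omega, by omega⟩
        by_cases hc : ∃ c < 3 * φ.length, p = cell φ c
        · obtain ⟨c, hc, rfl⟩ := hc
          exact r (d1_cell h hc)
        · push Not at hc
          exact (r (d1_spacer hp hc)).trans l1
      · obtain ⟨q, hq, rfl⟩ : ∃ p < cR φ.length, v = 4 + cR φ.length + p :=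
          ⟨v - 4 - cR φ.length, by omega, by omega⟩
        cases ht : τ (q / (6 * φ.length)) with
        | false => exact ((r (d1_false h hq ht)).trans (l (d1_U0 hq))).trans r0
        | true =>
          obtain ⟨p, hp, rfl⟩ := nx_surj' h.pos hq
          rw [nx_div h.pos] at ht
          exact ((r (d1_true h hp ht)).trans (l (d1_U0 hp))).trans r0

end

theorem hasPair_of_sat {φ : Cnf} (h : Good φ) (hs : SAT3 φ) : HasPair (red φ) := by
  obtain ⟨τ, hτ⟩ := hs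
  refine ⟨D1 φ τ, D2 φ τ, ?_, ?_, ?_, ?_, ?_⟩
  · rintro ⟨v, w⟩ hvw
    exact (mem_arcs h).2 (mem_D1.1 hvw).1
  · rintro ⟨v, w⟩ hvw
    exact (mem_arcs h).2 (D2_sub hvw)
  · rw [Set.disjoint_left]
    rintro ⟨v, w⟩ hvw
    exact (mem_D1.1 hvw).2
  · rw [length_red]
    exact antistrong_D1 h
  · rw [length_red]
    exact strong_D2 hτ h

end Pool.Agent.V8H41.AS
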