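import Pool.Agent.V8H41.AS.Trail
import Pool.Agent.H671R2.Search
import Pool.Agent.H673R2.Search
import Pool.Agent.H612.CollectPoly

/-!
# Membership in `NP`
-/

namespace Pool.Agent.V8H41.AS

/-! ### Certificates for reachability -/

/-- The check of a ranking which proves that `0` is reached from all numbers below `n`. -/
def chk (n : ℕ) (r : ℕ → ℕ → Bool) (rk : List ℕ) : Bool :=
  (List.range n).all fun v => decide (v = 0) ||
    (List.range n).any fun w => r v w && decide (rk.getD w 0 < rk.getD v 0)

theorem chk_iff {n : ℕ} {r : ℕ → ℕ → Bool} {rk : List ℕ} : chk n r rk = true ↔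
    ∀ v < n, v = 0 ∨ ∃ w < n, r v w = true ∧ rk.getD w 0 < rk.getD v 0 := by
  unfold chk
  simp only [List.all_eq_true, List.mem_range, Bool.or_eq_true, decide_eq_true_eq,
    List.any_eq_true, Bool.and_eq_true]

theorem reach_of_chk {n : ℕ} {r : ℕ → ℕ → Bool} {rk : List ℕ} (h : chk n r rk = true) :
    ∀ v < n, Relation.ReflTransGen (fun a b => b < n ∧ r a b = true) v 0 := by
  rw [chk_iff] at h
  have key : ∀ k v, v < n → rk.getD v 0 = k →
      Relation.ReflTransGen (fun a b => b < n ∧ r a b = true) v 0 := by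
    intro k
    induction k using Nat.strong_induction_on with
    | _ k ih =>
      intro v hv hk
      rcases h v hv with rfl | ⟨w, hw, hr, hlt⟩
      · exact Relation.ReflTransGen.refl
      · exact Relation.ReflTransGen.head ⟨hw, hr⟩ (ih _ (by omega) w hw rfl)
  exact fun v hv => key _ v hv rfl

/-- `0` is reached from `v` in exactly `k` steps. -/
def Wk (n : ℕ) (r : ℕ → ℕ → Bool) : ℕ → ℕ → Prop
  | 0, v => v = 0
  | k + 1, v => ∃ w < n, r v w = true ∧ Wk n r k w

theorem getD_map_range {f : ℕ → ℕ} {n a : ℕ} (ha : a < n) :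
    ((List.range n).map f).getD a 0 = f a := by
  rw [List.getD_eq_getElem _ _ (by simpa using ha), List.getElem_map, List.getElem_range]

theorem exists_chk {n : ℕ} {r : ℕ → ℕ → Bool}
    (h : ∀ v < n, Relation.ReflTransGen (fun a b => b < n ∧ r a b = true) v 0) :
    ∃ rk : List ℕ, rk.length = n ∧ (∀ x ∈ rk, x ≤ n) ∧ chk n r rk = true := by
  classical
  have hW : ∀ v < n, ∃ k, Wk n r k v := by
    intro v hv
    refine Relation.ReflTransGen.head_induction_on (motive := fun a _ => ∃ k, Wk n r k a)
      (h v hv) ⟨0, rfl⟩ ?_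
    rintro a b ⟨hb, hr⟩ _ ⟨k, hk⟩
    exact ⟨k + 1, b, hb, hr, hk⟩
  let f : ℕ → ℕ := fun v => if h : ∃ k, Wk n r k v then Nat.find h else 0
  have hf : ∀ v < n, v ≠ 0 → ∃ w < n, r v w = true ∧ f w < f v := by
    intro v hv hv0
    have hex := hW v hv
    have hfv : f v = Nat.find hex := dif_pos hex
    have hsp := Nat.find_spec hex
    rw [← hfv] at hsp
    cases hk : f v with
    | zero =>
      rw [hk] at hsp
      exact absurd hsp hv0
    | succ k =>
      rw [hk] at hsp
      obtain ⟨w, hw, hr, hwk⟩ := hsp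
      refine ⟨w, hw, hr, ?_⟩
      have hexw : ∃ k, Wk n r k w := ⟨k, hwk⟩
      have hfw : f w = Nat.find hexw := dif_pos hexw
      have := Nat.find_min' hexw hwk
      omega
  let g : ℕ → ℕ := fun v => ((Finset.range n).filter (fun u => f u < f v)).card
  refine ⟨(List.range n).map g, by simp, ?_, ?_⟩
  · intro x hx
    rw [List.mem_map] at hx
    obtain ⟨v, _, rfl⟩ := hx
    refine (Finset.card_filter_le _ _).trans ?_
    rw [Finset.card_range]
  · rw [chk_iff]
    intro v hv
    by_cases hv0 : v = 0
    · exact Or.inl hv0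
    · right
      obtain ⟨w, hw, hr, hlt⟩ := hf v hv hv0
      refine ⟨w, hw, hr, ?_⟩
      rw [getD_map_range hw, getD_map_range hv]
      apply Finset.card_lt_card
      rw [Finset.ssubset_iff_of_subset]
      · refine ⟨w, ?_, ?_⟩
        · rw [Finset.mem_filter, Finset.mem_range]
          exact ⟨hw, hlt⟩
        · rw [Finset.mem_filter]
          exact fun h' => lt_irrefl _ h'.2
      · intro u hu
        rw [Finset.mem_filter] at hu ⊢
        exact ⟨hu.1, hu.2.trans hlt⟩

/-! ### The verifier -/

/-- The test for digraphs. -/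
def isDigB (G : List (List ℕ)) : Bool :=
  (List.range G.length).all fun v =>
    ((G.getD v []).all fun w => decide ((G.getD v []).count w = 1)) &&
      (G.getD v []).all fun w => decide (w < G.length) && !decide (w = v)

theorem isDigB_iff (G : List (List ℕ)) : isDigB G = true ↔ IsDigraph G := by
  unfold isDigB IsDigraph
  simp only [List.all_eq_true, List.mem_range, Bool.and_eq_true, decide_eq_true_eq,
    Bool.not_eq_true', decide_eq_false_iff_not, List.nodup_iff_count_eq_one]

/-- The arcs of the first part, whose codes are listed in `K`. -/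
def a1 (G : List (List ℕ)) (K : List ℕ) (v w : ℕ) : Bool :=
  decide (w ∈ G.getD v []) && decide (v * G.length + w ∈ K)

/-- The arcs of the second part. -/
def a2 (G : List (List ℕ)) (K : List ℕ) (v w : ℕ) : Bool :=
  decide (w ∈ G.getD v []) && !decide (v * G.length + w ∈ K)

/-- Adjacency in the bipartite representation of the first part. -/
def bB (G : List (List ℕ)) (K : List ℕ) (a b : ℕ) : Bool :=
  (decide (a % 2 = 0) && (decide (b % 2 = 1) && a1 G K (a / 2) (b / 2))) ||
    (decide (a % 2 = 1) && (decide (b % 2 = 0) && a1 G K (b / 2) (a / 2)))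

/-- The test for short lists of small numbers. -/
def lenB (l : List ℕ) (n : ℕ) : Bool := decide (l.length ≤ n) && l.all fun x => decide (x ≤ n)

/-- The certificates. -/
abbrev Crt : Type := List ℕ × List ℕ × List ℕ × List ℕ

/-- The verifier. -/
def vf (x : List (List ℕ) × Crt) : Bool :=
  isDigB x.1 && (decide (3 ≤ x.1.length) && (lenB x.2.1 (x.1.length * x.1.length) &&
    (lenB x.2.2.1 (2 * x.1.length) && (lenB x.2.2.2.1 (2 * x.1.length) &&
    (lenB x.2.2.2.2 (2 * x.1.length) &&
    (chk x.1.length (fun v w => a2 x.1 x.2.1 v w) x.2.2.1 &&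
    (chk x.1.length (fun v w => a2 x.1 x.2.1 w v) x.2.2.2.1 &&
    chk (2 * x.1.length) (fun v w => bB x.1 x.2.1 v w) x.2.2.2.2)))))))

/-- Decoding of the vertices of the bipartite representation. -/
def dec (a : ℕ) : ℕ ⊕ ℕ := if a % 2 = 0 then Sum.inl (a / 2) else Sum.inr (a / 2)

/-- Coding of the vertices of the bipartite representation. -/
def cod : ℕ ⊕ ℕ → ℕ := Sum.elim (fun v => 2 * v) (fun v => 2 * v + 1)

theorem arc_lt {G : List (List ℕ)} (hG : IsDigraph G) {v w : ℕ} (h : (v, w) ∈ arcs G) :
    v < G.length ∧ w < G.length := by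
  unfold arcs at h
  rw [Set.mem_setOf_eq] at h
  dsimp only at h
  have hv : v < G.length := by
    by_contra hcon
    rw [List.getD_eq_default _ _ (by omega)] at h
    simp at h
  exact ⟨hv, ((hG v hv).2 w h).1⟩

theorem sound {G : List (List ℕ)} {w : Crt} (h : vf (G, w) = true) : IsDigraph G ∧ HasPair G := by
  obtain ⟨K, r1, r2, r3⟩ := w
  unfold vf at h
  simp only [Bool.and_eq_true, isDigB_iff, decide_eq_true_iff] at h
  obtain ⟨hG, h3, -, -, -, -, c1, c2, c3⟩ := h
  refine ⟨hG, {a | a1 G K a.1 a.2 = true}, {a | a2 G K a.1 a.2 = true}, ?_, ?_, ?_, ?_, ?_⟩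
  · rintro ⟨v, w⟩ hvw
    rw [Set.mem_setOf_eq] at hvw
    unfold a1 at hvw
    rw [Bool.and_eq_true, decide_eq_true_iff] at hvw
    exact hvw.1
  · rintro ⟨v, w⟩ hvw
    rw [Set.mem_setOf_eq] at hvw
    unfold a2 at hvw
    rw [Bool.and_eq_true, decide_eq_true_iff] at hvw
    exact hvw.1
  · rw [Set.disjoint_left]
    rintro ⟨v, w⟩ hvw hvw'
    rw [Set.mem_setOf_eq] at hvw hvw'
    unfold a1 at hvw
    unfold a2 at hvw'
    simp only [Bool.and_eq_true, decide_eq_true_iff, Bool.not_eq_true',
      decide_eq_false_iff_not] at hvw hvw'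
    exact hvw'.2 hvw.2
  · have g : ∀ c < 2 * G.length,
        (BG {a | a1 G K a.1 a.2 = true}).Reachable (dec c) (Sum.inl 0) := by
      intro c hc
      have h1 := reach_of_chk c3 c hc
      rw [SimpleGraph.reachable_iff_reflTransGen]
      have h2 : Relation.ReflTransGen (BG {a | a1 G K a.1 a.2 = true}).Adj (dec c) (dec 0) := by
        refine Relation.ReflTransGen.lift dec ?_ _ _ h1
        rintro a b ⟨_, hab⟩
        unfold bB at hab
        simp only [Bool.or_eq_true, Bool.and_eq_true, decide_eq_true_iff] at hab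
        change (BG {a | a1 G K a.1 a.2 = true}).Adj (dec a) (dec b)
        unfold dec
        rcases hab with ⟨e1, e2, e3⟩ | ⟨e1, e2, e3⟩
        · rw [if_pos e1, if_neg (by omega), adj_lr]
          exact e3
        · rw [if_neg (by omega), if_pos e2, adj_rl]
          exact e3
      exact h2
    refine antistrong_of h3 ?_ ?_
    · intro v hv
      have h1 := g (2 * v) (by omega)
      unfold dec at h1
      rw [if_pos (by omega), Nat.mul_div_cancel_left _ (by omega)] at h1
      exact h1
    · intro v hv
      have h1 := g (2 * v + 1) (by omega)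
      unfold dec at h1
      rw [if_neg (by omega), show (2 * v + 1) / 2 = v by omega] at h1
      exact h1
  · intro x hx y hy
    have h1 : Relation.ReflTransGen
        (fun a b => (a, b) ∈ {a : ℕ × ℕ | a2 G K a.1 a.2 = true}) x 0 :=
      Relation.ReflTransGen.mono (fun a b hab => hab.2) _ _ (reach_of_chk c1 x hx)
    have h2 : Relation.ReflTransGen
        (Function.swap fun a b => (a, b) ∈ {a : ℕ × ℕ | a2 G K a.1 a.2 = true}) y 0 :=
      Relation.ReflTransGen.mono (fun a b hab => hab.2) _ _ (reach_of_chk c2 y hy)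
    rw [Relation.reflTransGen_swap] at h2
    exact h1.trans h2

theorem lenB_of {l : List ℕ} {n : ℕ} (h1 : l.length ≤ n) (h2 : ∀ x ∈ l, x ≤ n) :
    lenB l n = true := by
  unfold lenB
  rw [Bool.and_eq_true, decide_eq_true_iff, List.all_eq_true]
  exact ⟨h1, fun x hx => decide_eq_true (h2 x hx)⟩

theorem complete {G : List (List ℕ)} (hG : IsDigraph G) (h : HasPair G) :
    ∃ w : Crt, vf (G, w) = true := by
  classical
  obtain ⟨A₁, A₂, s1, s2, hd, ha, hs⟩ := h
  have h3 : 3 ≤ G.length := ha.1
  let K : List ℕ := (List.range (G.length * G.length)).filter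
    (fun x => decide ((x / G.length, x % G.length) ∈ A₁))
  have hK : ∀ v w, v < G.length → w < G.length → (v * G.length + w ∈ K ↔ (v, w) ∈ A₁) := by
    intro v w hv hw
    have e1 : (v * G.length + w) / G.length = v := by
      rw [Nat.mul_comm, Nat.mul_add_div (by omega), Nat.div_eq_of_lt hw, Nat.add_zero]
    have e2 : (v * G.length + w) % G.length = w := by
      rw [Nat.mul_comm, Nat.mul_add_mod, Nat.mod_eq_of_lt hw]
    have e3 : v * G.length + w < G.length * G.length := by
      have := Nat.mul_le_mul_right G.length (show v + 1 ≤ G.length by omega)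
      rw [Nat.add_mul, Nat.one_mul] at this
      omega
    simp only [K, List.mem_filter, List.mem_range, decide_eq_true_iff, e1, e2, e3, true_and]
  have m1 : ∀ v w, a1 G K v w = true ↔ (v, w) ∈ A₁ := by
    intro v w
    unfold a1
    rw [Bool.and_eq_true, decide_eq_true_iff, decide_eq_true_iff]
    constructor
    · rintro ⟨h1, h2⟩
      obtain ⟨hv, hw⟩ := arc_lt hG (show (v, w) ∈ arcs G from h1)
      exact (hK v w hv hw).1 h2
    · intro h1
      have h2 := s1 h1
      obtain ⟨hv, hw⟩ := arc_lt hG h2
      exact ⟨h2, (hK v w hv hw).2 h1⟩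
  have m2 : ∀ v w, (v, w) ∈ A₂ → a2 G K v w = true := by
    intro v w h1
    unfold a2
    rw [Bool.and_eq_true, decide_eq_true_iff, Bool.not_eq_true', decide_eq_false_iff_not]
    have h2 := s2 h1
    obtain ⟨hv, hw⟩ := arc_lt hG h2
    refine ⟨h2, fun h4 => ?_⟩
    exact Set.disjoint_left.1 hd ((hK v w hv hw).1 h4) h1
  obtain ⟨r1, l1, b1, c1⟩ := exists_chk (n := G.length) (r := fun v w => a2 G K v w) (by
    intro v hv
    refine Relation.ReflTransGen.mono ?_ _ _ (hs v hv 0 (by omega))
    intro a b hab
    exact ⟨(arc_lt hG (s2 hab)).2, m2 a b hab⟩)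
  obtain ⟨r2, l2, b2, c2⟩ := exists_chk (n := G.length) (r := fun v w => a2 G K w v) (by
    intro v hv
    have h1 := hs 0 (by omega) v hv
    rw [← Relation.reflTransGen_swap] at h1
    refine Relation.ReflTransGen.mono ?_ _ _ h1
    intro a b hab
    exact ⟨(arc_lt hG (s2 hab)).1, m2 b a hab⟩)
  obtain ⟨r3, l3, b3, c3⟩ := exists_chk (n := 2 * G.length) (r := fun v w => bB G K v w) (by
    have g : ∀ a : ℕ ⊕ ℕ, (BG A₁).Reachable a (Sum.inl 0) →
        Relation.ReflTransGen (fun a b => b < 2 * G.length ∧ bB G K a b = true) (cod a) 0 := by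
      intro a h1
      rw [SimpleGraph.reachable_iff_reflTransGen] at h1
      have h2 : Relation.ReflTransGen (fun a b => b < 2 * G.length ∧ bB G K a b = true)
          (cod a) (cod (Sum.inl 0)) := by
        refine Relation.ReflTransGen.lift cod ?_ _ _ h1
        rintro a b (⟨v, w, hvw, rfl, rfl⟩ | ⟨v, w, hvw, rfl, rfl⟩)
        · have hlt := arc_lt hG (s1 hvw)
          change 2 * w + 1 < 2 * G.length ∧ bB G K (2 * v) (2 * w + 1) = true
          refine ⟨by omega, ?_⟩
          unfold bB
          simp only [Bool.or_eq_true, Bool.and_eq_true, decide_eq_true_iff]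
          left
          refine ⟨by omega, by omega, ?_⟩
          rw [show 2 * v / 2 = v by omega, show (2 * w + 1) / 2 = w by omega, m1]
          exact hvw
        · have hlt := arc_lt hG (s1 hvw)
          change 2 * v < 2 * G.length ∧ bB G K (2 * w + 1) (2 * v) = true
          refine ⟨by omega, ?_⟩
          unfold bB
          simp only [Bool.or_eq_true, Bool.and_eq_true, decide_eq_true_iff]
          right
          refine ⟨by omega, by omega, ?_⟩
          rw [show 2 * v / 2 = v by omega, show (2 * w + 1) / 2 = w by omega, m1]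
          exact hvw
      exact h2
    intro c hc
    rcases Nat.mod_two_eq_zero_or_one c with h1 | h1
    · have h2 := g _ (ha.left (show c / 2 < G.length by omega))
      simp only [cod, Sum.elim_inl] at h2
      rwa [show 2 * (c / 2) = c by omega] at h2
    · have h2 := g _ (ha.right (show c / 2 < G.length by omega))
      simp only [cod, Sum.elim_inr] at h2
      rwa [show 2 * (c / 2) + 1 = c by omega] at h2)
  refine ⟨(K, r1, r2, r3), ?_⟩
  unfold vf
  simp only [Bool.and_eq_true, isDigB_iff, decide_eq_true_iff]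
  refine ⟨hG, h3, lenB_of ?_ ?_, lenB_of (by omega) ?_, lenB_of (by omega) ?_,
    lenB_of (by omega) b3, c1, c2, c3⟩
  · refine (List.length_filter_le _ _).trans ?_
    rw [List.length_range]
  · intro x hx
    have := List.mem_range.1 (List.mem_filter.1 hx).1
    omega
  · intro x hx
    have := b1 x hx
    omega
  · intro x hx
    have := b2 x hx
    omega

end Pool.Agent.V8H41.AS
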