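import Pool.Agent.V8H41.AS.Trail
import Pool.Agent.NPC.Sat2

/-!
# The reduction from 3-satisfiability

The vertices are four hubs `0, 1, 2, 3`, the choice vertices `4 + p` and the needy vertices
`4 + R + p`, for the cells `p < R`; the cells of each variable form a ring.
-/

namespace Pool.Agent.V8H41.AS

open Pool.Agent.NPC

/-- Formulas. -/
abbrev Cnf : Type := List (Lit ℕ × Lit ℕ × Lit ℕ)

/-- The `c`-th literal. -/
def lit (φ : Cnf) (c : ℕ) : Bool × ℕ :=
  if c % 3 = 0 then (φ.getD (c / 3) ((true, 0), (true, 0), (true, 0))).1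
  else if c % 3 = 1 then (φ.getD (c / 3) ((true, 0), (true, 0), (true, 0))).2.1
  else (φ.getD (c / 3) ((true, 0), (true, 0), (true, 0))).2.2

/-- The next position in the same clause. -/
def nxc (c : ℕ) : ℕ := if c % 3 = 2 then c - 2 else c + 1

/-- The number of cells. -/
def cR (m : ℕ) : ℕ := 3 * m * (6 * m)

/-- The next cell of the same ring. -/
def nx (m p : ℕ) : ℕ := if (p + 1) % (6 * m) = 0 then p + 1 - 6 * m else p + 1

/-- The position belonging to a cell. -/
def cof (m p : ℕ) : ℕ := p % (6 * m) / 2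

/-- The cell of the choice vertex of the position `c`. -/
def cell (φ : Cnf) (c : ℕ) : ℕ := (lit φ c).2 * (6 * φ.length) + 2 * c

/-- The cell of the connector of the position `c`. -/
def cn (φ : Cnf) (c : ℕ) : ℕ := cell φ c + (if (lit φ c).1 = true then 1 else 0)

/-- The heads of the arcs with tail `v`. -/
def out (φ : Cnf) (v : ℕ) : List ℕ :=
  if v < 4 then (List.range 4).filter (fun w => !decide (w = v)) ++
    (if v = 0 then (List.range (cR φ.length)).map (fun p => 4 + p)
    else if v = 1 then ((List.range (cR φ.length)).filter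
      (fun p => !decide (p = cell φ (cof φ.length p)))).map (fun p => 4 + p)
    else [])
  else if v < 4 + cR φ.length then
    [0, 4 + cR φ.length + (v - 4), 4 + cR φ.length + nx φ.length (v - 4)]
  else if v - 4 - cR φ.length = cn φ (cof φ.length (v - 4 - cR φ.length)) then
    [0, 4 + cell φ (nxc (cof φ.length (v - 4 - cR φ.length)))]
  else [0, 1]

/-- The digraph. -/
def red (φ : Cnf) : List (List ℕ) := (List.range (4 + 2 * cR φ.length)).map (out φ)

/-- Formulas with at least one clause, all of whose variables are below three times the number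
of clauses. -/
def Good (φ : Cnf) : Prop := Bounded3 φ ∧ φ ≠ []

section

variable {φ : Cnf}

theorem Good.pos (h : Good φ) : 0 < φ.length := List.length_pos_iff.2 h.2

theorem Good.lit_lt (h : Good φ) {c : ℕ} (hc : c < 3 * φ.length) :
    (lit φ c).2 < 3 * φ.length := by
  have hj : c / 3 < φ.length := by omega
  have h1 := h.1 _ (List.getElem_mem hj)
  unfold lit
  rw [List.getD_eq_getElem _ _ hj]
  split_ifs
  · exact h1.1
  · exact h1.2.1
  · exact h1.2.2

theorem nxc_lt {c m : ℕ} (hc : c < 3 * m) : nxc c < 3 * m := by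
  unfold nxc
  split_ifs <;> omega

theorem nxc_inj {c c' : ℕ} (h : nxc c = nxc c') : c = c' := by
  unfold nxc at h
  split_ifs at h <;> omega

theorem nxc_div (c : ℕ) : nxc c / 3 = c / 3 := by
  unfold nxc
  split_ifs <;> omega

theorem nxc3 (c : ℕ) : nxc (nxc (nxc c)) = c := by
  unfold nxc
  split_ifs <;> omega

theorem lt_of_mul_add {x m i : ℕ} (hx : x < 3 * m) (hi : i < 6 * m) :
    x * (6 * m) + i < cR m := by
  unfold cR
  have h := Nat.mul_le_mul_right (6 * m) (show x + 1 ≤ 3 * m by omega)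
  rw [Nat.add_mul, Nat.one_mul] at h
  omega

theorem Good.cell_lt (h : Good φ) {c : ℕ} (hc : c < 3 * φ.length) :
    cell φ c < cR φ.length := lt_of_mul_add (h.lit_lt hc) (by omega)

theorem Good.cn_lt (h : Good φ) {c : ℕ} (hc : c < 3 * φ.length) :
    cn φ c < cR φ.length := by
  unfold cn cell
  rw [Nat.add_assoc]
  exact lt_of_mul_add (h.lit_lt hc) (by split_ifs <;> omega)

theorem cof_cell {c : ℕ} (hc : c < 3 * φ.length) : cof φ.length (cell φ c) = c := by
  unfold cof cell
  rw [Nat.mul_comm, Nat.mul_add_mod, Nat.mod_eq_of_lt (by omega)]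
  omega

theorem cof_cn {c : ℕ} (hc : c < 3 * φ.length) : cof φ.length (cn φ c) = c := by
  unfold cof cn cell
  rw [Nat.add_assoc, Nat.mul_comm, Nat.mul_add_mod, Nat.mod_eq_of_lt (by split_ifs <;> omega)]
  split_ifs <;> omega

theorem cell_inj {c c' : ℕ} (hc : c < 3 * φ.length) (hc' : c' < 3 * φ.length)
    (h : cell φ c = cell φ c') : c = c' := by
  rw [← cof_cell hc, ← cof_cell hc', h]

theorem cn_inj {c c' : ℕ} (hc : c < 3 * φ.length) (hc' : c' < 3 * φ.length)
    (h : cn φ c = cn φ c') : c = c' := by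
  rw [← cof_cn hc, ← cof_cn hc', h]

theorem cof_lt {m p : ℕ} (hm : 0 < m) : cof m p < 3 * m := by
  have := Nat.mod_lt p (show 0 < 6 * m by omega)
  unfold cof
  omega

theorem nx_lt {m p : ℕ} (hm : 0 < m) (hp : p < cR m) : nx m p < cR m := by
  unfold nx
  split_ifs with h
  · omega
  · rcases Nat.lt_or_ge (p + 1) (cR m) with h1 | h1
    · exact h1
    · exfalso
      apply h
      have : p + 1 = cR m := by omega
      rw [this]
      unfold cR
      exact Nat.mul_mod_left _ _

theorem nx_ne {m : ℕ} (hm : 0 < m) (p : ℕ) : nx m p ≠ p := by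
  unfold nx
  split_ifs with h
  · have := Nat.le_of_dvd (by omega) (Nat.dvd_of_mod_eq_zero h)
    omega
  · omega

theorem nx_inj {m p p' : ℕ} (hm : 0 < m) (h : nx m p = nx m p') : p = p' := by
  unfold nx at h
  split_ifs at h with h1 h2 h2
  · have e1 := Nat.le_of_dvd (by omega) (Nat.dvd_of_mod_eq_zero h1)
    have e2 := Nat.le_of_dvd (by omega) (Nat.dvd_of_mod_eq_zero h2)
    omega
  · exfalso
    apply h2
    rw [← h]
    exact Nat.mod_eq_zero_of_dvd (Nat.dvd_sub (Nat.dvd_of_mod_eq_zero h1) dvd_rfl)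
  · exfalso
    apply h1
    rw [h]
    exact Nat.mod_eq_zero_of_dvd (Nat.dvd_sub (Nat.dvd_of_mod_eq_zero h2) dvd_rfl)
  · omega

theorem nx_mul_add {m x i : ℕ} (hi : i + 1 < 6 * m) : nx m (x * (6 * m) + i) =
    x * (6 * m) + (i + 1) := by
  unfold nx
  rw [if_neg]
  · rfl
  · rw [Nat.add_assoc, Nat.mul_comm, Nat.mul_add_mod, Nat.mod_eq_of_lt hi]
    omega

theorem nx_last {m x : ℕ} (hm : 0 < m) : nx m (x * (6 * m) + (6 * m - 1)) = x * (6 * m) := by
  unfold nx
  have : x * (6 * m) + (6 * m - 1) + 1 = (x + 1) * (6 * m) := by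
    rw [Nat.add_mul]
    omega
  rw [this, if_pos (Nat.mul_mod_left _ _), Nat.add_mul]
  omega

/-- The arcs. -/
def ArcP (φ : Cnf) (v w : ℕ) : Prop :=
  (v < 4 ∧ w < 4 ∧ v ≠ w) ∨
  (∃ p < cR φ.length, v = 0 ∧ w = 4 + p) ∨
  (∃ p < cR φ.length, (∀ c < 3 * φ.length, p ≠ cell φ c) ∧ v = 1 ∧ w = 4 + p) ∨
  (∃ p < cR φ.length, v = 4 + p ∧ (w = 0 ∨ w = 4 + cR φ.length + p ∨
    w = 4 + cR φ.length + nx φ.length p)) ∨
  (∃ p < cR φ.length, v = 4 + cR φ.length + p ∧ w = 0) ∨
  (∃ p < cR φ.length, (∀ c < 3 * φ.length, p ≠ cn φ c) ∧ v = 4 + cR φ.length + p ∧ w = 1) ∨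
  (∃ c < 3 * φ.length, v = 4 + cR φ.length + cn φ c ∧ w = 4 + cell φ (nxc c))

theorem length_red : (red φ).length = 4 + 2 * cR φ.length := by
  simp [red]

theorem getD_red {v : ℕ} (hv : v < 4 + 2 * cR φ.length) : (red φ).getD v [] = out φ v := by
  unfold red
  rw [List.getD_eq_getElem _ _ (by simpa using hv), List.getElem_map, List.getElem_range]

theorem not_cell_iff {p : ℕ} (h : Good φ) :
    p ≠ cell φ (cof φ.length p) ↔ ∀ c < 3 * φ.length, p ≠ cell φ c := by
  constructor
  · rintro h1 c hc rfl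
    rw [cof_cell hc] at h1
    exact h1 rfl
  · intro h1
    exact h1 _ (cof_lt h.pos)

theorem not_cn_iff {p : ℕ} (h : Good φ) :
    p ≠ cn φ (cof φ.length p) ↔ ∀ c < 3 * φ.length, p ≠ cn φ c := by
  constructor
  · rintro h1 c hc rfl
    rw [cof_cn hc] at h1
    exact h1 rfl
  · intro h1
    exact h1 _ (cof_lt h.pos)

theorem mem_out_iff (h : Good φ) {v w : ℕ} (hv : v < 4 + 2 * cR φ.length) :
    w ∈ out φ v ↔ ArcP φ v w := by
  unfold out ArcP
  by_cases h4 : v < 4
  · rw [if_pos h4, List.mem_append, List.mem_filter, List.mem_range]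
    have e1 : (w < 4 ∧ (!decide (w = v)) = true) ↔ (v < 4 ∧ w < 4 ∧ v ≠ w) := by
      simp only [Bool.not_eq_true', decide_eq_false_iff_not]
      constructor
      · rintro ⟨a, b⟩
        exact ⟨h4, a, fun e => b e.symm⟩
      · rintro ⟨_, a, b⟩
        exact ⟨a, fun e => b e.symm⟩
    rw [e1]
    refine or_congr Iff.rfl ?_
    by_cases h0 : v = 0
    · rw [if_pos h0, List.mem_map]
      constructor
      · rintro ⟨p, hp, rfl⟩
        exact Or.inl ⟨p, List.mem_range.1 hp, h0, rfl⟩
      · rintro (⟨p, hp, -, rfl⟩ | ⟨p, hp, _, h1, rfl⟩ | ⟨p, hp, h1, _⟩ | ⟨p, hp, h1, _⟩ |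
          ⟨p, hp, _, h1, _⟩ | ⟨c, hc, h1, _⟩)
        · exact ⟨p, List.mem_range.2 hp, rfl⟩
        all_goals omega
    · rw [if_neg h0]
      by_cases h1 : v = 1
      · rw [if_pos h1, List.mem_map]
        constructor
        · rintro ⟨p, hp, rfl⟩
          rw [List.mem_filter, List.mem_range, Bool.not_eq_true', decide_eq_false_iff_not] at hp
          exact Or.inr (Or.inl ⟨p, hp.1, (not_cell_iff h).1 hp.2, h1, rfl⟩)
        · rintro (⟨p, hp, h2, rfl⟩ | ⟨p, hp, hc, _, rfl⟩ | ⟨p, hp, h2, _⟩ | ⟨p, hp, h2, _⟩ |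
            ⟨p, hp, _, h2, _⟩ | ⟨c, hc, h2, _⟩)
          · omega
          · refine ⟨p, ?_, rfl⟩
            rw [List.mem_filter, List.mem_range, Bool.not_eq_true', decide_eq_false_iff_not]
            exact ⟨hp, (not_cell_iff h).2 hc⟩
          all_goals omega
      · rw [if_neg h1]
        constructor
        · intro hw
          simp at hw
        · rintro (⟨p, hp, h2, rfl⟩ | ⟨p, hp, hc, h2, rfl⟩ | ⟨p, hp, h2, _⟩ | ⟨p, hp, h2, _⟩ |
            ⟨p, hp, _, h2, _⟩ | ⟨c, hc, h2, _⟩)
          all_goals omega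
  · rw [if_neg h4]
    by_cases hR : v < 4 + cR φ.length
    · rw [if_pos hR]
      constructor
      · intro hw
        simp only [List.mem_cons, List.not_mem_nil, or_false] at hw
        exact Or.inr (Or.inr (Or.inr (Or.inl ⟨v - 4, by omega, by omega, hw⟩)))
      · rintro (⟨h1, _⟩ | ⟨p, hp, h2, _⟩ | ⟨p, hp, hc, h2, _⟩ | ⟨p, hp, h2, h3⟩ | ⟨p, hp, h2, _⟩ |
            ⟨p, hp, _, h2, _⟩ | ⟨c, hc, h2, _⟩)
        · omega
        · omega
        · omega
        · have : v - 4 = p := by omega
          simp only [List.mem_cons, List.not_mem_nil, or_false]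
          rw [this]
          exact h3
        all_goals omega
    · rw [if_neg hR]
      obtain ⟨q, hq, rfl⟩ : ∃ q < cR φ.length, v = 4 + cR φ.length + q :=
        ⟨v - 4 - cR φ.length, by omega, by omega⟩
      have hsub : 4 + cR φ.length + q - 4 - cR φ.length = q := by omega
      rw [hsub]
      by_cases hcn : q = cn φ (cof φ.length q)
      · rw [if_pos hcn]
        simp only [List.mem_cons, List.not_mem_nil, or_false]
        constructor
        · rintro (rfl | rfl)
          · exact Or.inr (Or.inr (Or.inr (Or.inr (Or.inl ⟨q, hq, rfl, rfl⟩))))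
          · refine Or.inr (Or.inr (Or.inr (Or.inr (Or.inr (Or.inr ⟨cof φ.length q, cof_lt h.pos,
              ?_, rfl⟩)))))
            rw [← hcn]
        · rintro (⟨h1, _⟩ | ⟨p, hp, h2, _⟩ | ⟨p, hp, hc, h2, _⟩ | ⟨p, hp, h2, h3⟩ |
            ⟨p, hp, h2, h3⟩ | ⟨p, hp, h1, h2, _⟩ | ⟨c, hc, h2, h3⟩)
          · omega
          · omega
          · omega
          · omega
          · exact Or.inl h3
          · exfalso
            have : q = p := by omega
            subst this
            exact h1 _ (cof_lt h.pos) hcn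
          · have h5 : q = cn φ c := by omega
            rw [h5, cof_cn hc]
            exact Or.inr h3
      · rw [if_neg hcn]
        simp only [List.mem_cons, List.not_mem_nil, or_false]
        constructor
        · rintro (rfl | rfl)
          · exact Or.inr (Or.inr (Or.inr (Or.inr (Or.inl ⟨q, hq, rfl, rfl⟩))))
          · exact Or.inr (Or.inr (Or.inr (Or.inr (Or.inr (Or.inl ⟨q, hq, (not_cn_iff h).1 hcn,
              rfl, rfl⟩)))))
        · rintro (⟨h1, _⟩ | ⟨p, hp, h2, _⟩ | ⟨p, hp, hc, h2, _⟩ | ⟨p, hp, h2, h3⟩ |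
            ⟨p, hp, h2, h3⟩ | ⟨p, hp, h1, h2, h3⟩ | ⟨c, hc, h2, h3⟩)
          · omega
          · omega
          · omega
          · omega
          · exact Or.inl h3
          · exact Or.inr h3
          · exfalso
            have h5 : q = cn φ c := by omega
            exact (not_cn_iff h).1 hcn c hc h5

theorem ArcP.lt_left (h : Good φ) {v w : ℕ} (ha : ArcP φ v w) : v < 4 + 2 * cR φ.length := by
  rcases ha with ⟨h1, _⟩ | ⟨p, hp, h2, _⟩ | ⟨p, hp, hc, h2, _⟩ | ⟨p, hp, h2, h3⟩ |
            ⟨p, hp, h2, h3⟩ | ⟨p, hp, h1, h2, h3⟩ | ⟨c, hc, h2, h3⟩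
  · omega
  · omega
  · omega
  · omega
  · omega
  · omega
  · have := h.cn_lt hc
    omega

theorem ArcP.lt_right (h : Good φ) {v w : ℕ} (ha : ArcP φ v w) : w < 4 + 2 * cR φ.length := by
  rcases ha with ⟨_, h1, _⟩ | ⟨p, hp, _, h2⟩ | ⟨p, hp, hc, _, h2⟩ | ⟨p, hp, h2, h3⟩ |
            ⟨p, hp, h2, h3⟩ | ⟨p, hp, h1, h2, h3⟩ | ⟨c, hc, h2, h3⟩
  · omega
  · omega
  · omega
  · have := nx_lt h.pos hp
    rcases h3 with h3 | h3 | h3 <;> omega
  · omega
  · omega
  · have := h.cell_lt (nxc_lt hc)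
    omega

theorem mem_arcs (h : Good φ) {v w : ℕ} : (v, w) ∈ arcs (red φ) ↔ ArcP φ v w := by
  unfold arcs
  rw [Set.mem_setOf_eq]
  dsimp only
  by_cases hv : v < 4 + 2 * cR φ.length
  · rw [getD_red hv, mem_out_iff h hv]
  · rw [List.getD_eq_default _ _ (by rw [length_red]; omega)]
    constructor
    · intro hw
      simp at hw
    · intro ha
      exact absurd (ha.lt_left h) hv

theorem isDigraph_red (h : Good φ) : IsDigraph (red φ) := by
  intro v hv
  rw [length_red] at hv
  rw [getD_red hv, length_red]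
  constructor
  · unfold out
    split_ifs with h1 h2 h3 h4 h5
    · rw [List.nodup_append]
      refine ⟨List.nodup_range.filter _, List.nodup_range.map (fun a b hab => by omega), ?_⟩
      intro a ha b hb hab
      rw [List.mem_filter, List.mem_range] at ha
      rw [List.mem_map] at hb
      obtain ⟨p, _, rfl⟩ := hb
      omega
    · rw [List.nodup_append]
      refine ⟨List.nodup_range.filter _, (List.nodup_range.filter _).map
        (fun a b hab => by omega), ?_⟩
      intro a ha b hb hab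
      rw [List.mem_filter, List.mem_range] at ha
      rw [List.mem_map] at hb
      obtain ⟨p, _, rfl⟩ := hb
      omega
    · rw [List.append_nil]
      exact List.nodup_range.filter _
    · have h5 := nx_ne h.pos (v - 4)
      simp only [List.nodup_cons, List.mem_cons, List.not_mem_nil, or_false, not_or,
        not_false_eq_true, List.nodup_nil, and_true]
      omega
    · simp only [List.nodup_cons, List.mem_cons, List.not_mem_nil, or_false,
        not_false_eq_true, List.nodup_nil, and_true]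
      omega
    · decide
  · intro w hw
    rw [mem_out_iff h hv] at hw
    refine ⟨hw.lt_right h, ?_⟩
    rcases hw with ⟨_, h1, _⟩ | ⟨p, hp, _, h2⟩ | ⟨p, hp, hc, _, h2⟩ | ⟨p, hp, h2, h3⟩ |
            ⟨p, hp, h2, h3⟩ | ⟨p, hp, h1, h2, h3⟩ | ⟨c, hc, h2, h3⟩
    · omega
    · omega
    · omega
    · rcases h3 with h3 | h3 | h3 <;> omega
    · omega
    · omega
    · have := h.cell_lt (nxc_lt hc)
      omega

end

end Pool.Agent.V8H41.AS
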