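import Pool.Agent.V8H41.AS.Bwd
import Pool.Agent.V8H41.AS.Fwd
import Pool.Agent.V8H41.AS.Mem

/-!
# Polynomial time, and NP-completeness
-/

namespace Pool.Agent.NPC.V8H41AS

open Pool.Agent.NPC Pool.Agent.V8H41.AS Pool.Agent.NPC.H612
open Pool.Agent.H673R2

section

variable {α : Type} [TEnc α]

theorem poly_isDigB {G : α → List (List ℕ)} (hG : Poly G) : Poly (fun a => isDigB (G a)) := by
  unfold isDigB
  have hn : UPoly (fun a => (G a).length) := UPoly.length hG
  refine Poly.all (p := fun a v =>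
    (((G a).getD v []).all fun w => decide (((G a).getD v []).count w = 1)) &&
      ((G a).getD v []).all fun w => decide (w < (G a).length) && !decide (w = v)) hn.range ?_
  have g : Poly (fun y : α × ℕ => (G y.1).getD y.2 []) :=
    Poly.getD (hG.comp (Poly.fst Poly.id)) (Poly.snd Poly.id) (Poly.const [])
  refine Poly.and ?_ ?_
  · refine Poly.all (p := fun (y : α × ℕ) w => decide (((G y.1).getD y.2 []).count w = 1)) g ?_
    exact Poly.decide_eq (poly_count (g.comp (Poly.fst Poly.id)) (Poly.snd Poly.id))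
      (Poly.const 1)
  · refine Poly.all (p := fun (y : α × ℕ) w => decide (w < (G y.1).length) && !decide (w = y.2))
      g ?_
    exact Poly.and (Poly.decide_lt (Poly.snd Poly.id)
      (hn.toPoly.comp (Poly.fst (Poly.fst Poly.id))))
      (Poly.not (Poly.decide_eq (Poly.snd Poly.id) (Poly.snd (Poly.fst Poly.id))))

theorem poly_a1 {G : α → List (List ℕ)} {K : α → List ℕ} {v w : α → ℕ} (hG : Poly G)
    (hK : Poly K) (hv : Poly v) (hw : Poly w) : Poly (fun a => a1 (G a) (K a) (v a) (w a)) :=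
  Poly.and (Poly.dec_mem hw (Poly.getD hG hv (Poly.const [])))
    (Poly.dec_mem (Poly.add (Poly.mul hv (Poly.length hG)) hw) hK)

theorem poly_a2 {G : α → List (List ℕ)} {K : α → List ℕ} {v w : α → ℕ} (hG : Poly G)
    (hK : Poly K) (hv : Poly v) (hw : Poly w) : Poly (fun a => a2 (G a) (K a) (v a) (w a)) :=
  Poly.and (Poly.dec_mem hw (Poly.getD hG hv (Poly.const [])))
    (Poly.not (Poly.dec_mem (Poly.add (Poly.mul hv (Poly.length hG)) hw) hK))

theorem poly_bB {G : α → List (List ℕ)} {K : α → List ℕ} {v w : α → ℕ} (hG : Poly G)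
    (hK : Poly K) (hv : Poly v) (hw : Poly w) : Poly (fun a => bB (G a) (K a) (v a) (w a)) := by
  have p0 : ∀ {f : α → ℕ} (c : ℕ), Poly f → Poly (fun a => decide (f a % 2 = c)) := fun c hf =>
    Poly.decide_eq (Poly.mod hf (Poly.const 2)) (Poly.const c)
  have p2 : ∀ {f : α → ℕ}, Poly f → Poly (fun a => f a / 2) := fun hf =>
    Poly.div hf (Poly.const 2)
  exact Poly.or (Poly.and (p0 0 hv) (Poly.and (p0 1 hw) (poly_a1 hG hK (p2 hv) (p2 hw))))
    (Poly.and (p0 1 hv) (Poly.and (p0 0 hw) (poly_a1 hG hK (p2 hw) (p2 hv))))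

theorem poly_lenB {l : α → List ℕ} {n : α → ℕ} (hl : Poly l) (hn : Poly n) :
    Poly (fun a => lenB (l a) (n a)) :=
  Poly.and (Poly.decide_le (Poly.length hl) hn)
    (Poly.all (p := fun a x => decide (x ≤ n a)) hl
      (Poly.decide_le (Poly.snd Poly.id) (hn.comp (Poly.fst Poly.id))))

theorem poly_chk {n : α → ℕ} {r : α → ℕ → ℕ → Bool} {rk : α → List ℕ} (hn : UPoly n)
    (hr : Poly (fun y : (α × ℕ) × ℕ => r y.1.1 y.1.2 y.2)) (hrk : Poly rk) :
    Poly (fun a => chk (n a) (r a) (rk a)) := by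
  unfold chk
  refine Poly.all (p := fun a v => decide (v = 0) ||
    (List.range (n a)).any fun w => r a v w && decide ((rk a).getD w 0 < (rk a).getD v 0))
    hn.range ?_
  refine Poly.or (Poly.decide_eq (Poly.snd Poly.id) (Poly.const 0)) ?_
  refine Poly.any (p := fun (y : α × ℕ) w => r y.1 y.2 w &&
    decide ((rk y.1).getD w 0 < (rk y.1).getD y.2 0)) (hn.comp (Poly.fst Poly.id)).range ?_
  have e : Poly (fun y : (α × ℕ) × ℕ => rk y.1.1) := hrk.comp (Poly.fst (Poly.fst Poly.id))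
  exact Poly.and hr (Poly.decide_lt (Poly.getD e (Poly.snd Poly.id) (Poly.const 0))
    (Poly.getD e (Poly.snd (Poly.fst Poly.id)) (Poly.const 0)))

end

section

abbrev X : Type := List (List ℕ) × Crt

theorem p1 : Poly (fun x : X => x.1) := Poly.fst Poly.id
theorem p2 : Poly (fun x : X => x.2.1) := Poly.fst (Poly.snd Poly.id)
theorem p3 : Poly (fun x : X => x.2.2.1) := Poly.fst (Poly.snd (Poly.snd Poly.id))
theorem p4 : Poly (fun x : X => x.2.2.2.1) := Poly.fst (Poly.snd (Poly.snd (Poly.snd Poly.id)))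
theorem p5 : Poly (fun x : X => x.2.2.2.2) := Poly.snd (Poly.snd (Poly.snd (Poly.snd Poly.id)))
theorem q1 : Poly (fun y : (X × ℕ) × ℕ => y.1.1.1) := Poly.fst (Poly.fst (Poly.fst Poly.id))
theorem q2 : Poly (fun y : (X × ℕ) × ℕ => y.1.1.2.1) :=
  Poly.fst (Poly.snd (Poly.fst (Poly.fst Poly.id)))
theorem q3 : Poly (fun y : (X × ℕ) × ℕ => y.1.2) := Poly.snd (Poly.fst Poly.id)
theorem q4 : Poly (fun y : (X × ℕ) × ℕ => y.2) := Poly.snd Poly.id
theorem pn : UPoly (fun x : X => x.1.length) := UPoly.length p1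
theorem p2n : UPoly (fun x : X => 2 * x.1.length) := UPoly.mul (UPoly.const 2) pn

theorem c1 : Poly (fun x : X => chk x.1.length (fun v w => a2 x.1 x.2.1 v w) x.2.2.1) :=
  poly_chk (n := fun x : X => x.1.length) (r := fun x v w => a2 x.1 x.2.1 v w)
    (rk := fun x => x.2.2.1) pn (poly_a2 q1 q2 q3 q4) p3

theorem c2 : Poly (fun x : X => chk x.1.length (fun v w => a2 x.1 x.2.1 w v) x.2.2.2.1) :=
  poly_chk (n := fun x : X => x.1.length) (r := fun x v w => a2 x.1 x.2.1 w v)
    (rk := fun x => x.2.2.2.1) pn (poly_a2 q1 q2 q4 q3) p4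

theorem c3 : Poly (fun x : X => chk (2 * x.1.length) (fun v w => bB x.1 x.2.1 v w)
    x.2.2.2.2) :=
  poly_chk (n := fun x : X => 2 * x.1.length) (r := fun x v w => bB x.1 x.2.1 v w)
    (rk := fun x => x.2.2.2.2) p2n (poly_bB q1 q2 q3 q4) p5

theorem d1 : Poly (fun x : X => lenB x.2.1 (x.1.length * x.1.length)) :=
  poly_lenB p2 (Poly.mul pn.toPoly pn.toPoly)

theorem d2 : Poly (fun x : X => lenB x.2.2.1 (2 * x.1.length)) := poly_lenB p3 p2n.toPoly

theorem d3 : Poly (fun x : X => lenB x.2.2.2.1 (2 * x.1.length)) := poly_lenB p4 p2n.toPoly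

theorem d4 : Poly (fun x : X => lenB x.2.2.2.2 (2 * x.1.length)) := poly_lenB p5 p2n.toPoly

theorem d5 : Poly (fun x : X => decide (3 ≤ x.1.length)) :=
  Poly.decide_le (Poly.const 3) pn.toPoly

theorem poly_vf : Poly vf :=
  Poly.and (poly_isDigB p1) (Poly.and d5 (Poly.and d1 (Poly.and d2 (Poly.and d3 (Poly.and d4
    (Poly.and c1 (Poly.and c2 c3)))))))

end

/-- The bound for the certificates. -/
noncomputable def cb : Polynomial ℕ :=
  4 * Polynomial.X ^ 4 + 50 * Polynomial.X ^ 2 + 20 * Polynomial.X + 20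

theorem sz_lenB {l : List ℕ} {n : ℕ} (h : lenB l n = true) : sz l ≤ n * (4 * n + 2) + 1 := by
  unfold lenB at h
  simp only [Bool.and_eq_true, decide_eq_true_iff, List.all_eq_true] at h
  obtain ⟨hl, hB⟩ := h
  have h1 : ∀ a ∈ l, sz a ≤ 4 * n + 1 := by
    intro a ha
    have h1 := sz_nat_le a
    have h2 := Poly.size_le_self a
    have h3 := hB a ha
    omega
  have h2 := sz_le_length_mul l _ h1
  have h3 := Nat.mul_le_mul_right (4 * n + 1 + 1) hl
  have h4 : n * (4 * n + 1 + 1) = n * (4 * n + 2) := by ring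
  omega

theorem short {G : List (List ℕ)} {w : Crt} (h : vf (G, w) = true) :
    sz w ≤ cb.eval (sz G) := by
  obtain ⟨K, r1, r2, r3⟩ := w
  unfold vf at h
  simp only [Bool.and_eq_true, decide_eq_true_iff] at h
  obtain ⟨-, -, hK, h1, h2, h3, -⟩ := h
  have s0 := sz_lenB hK
  have s1 := sz_lenB h1
  have s2 := sz_lenB h2
  have s3 := sz_lenB h3
  have hn : G.length ≤ sz G := (length_lt_sz G).le
  have hev : cb.eval (sz G) = 4 * sz G ^ 4 + 50 * sz G ^ 2 + 20 * sz G + 20 := by
    unfold cb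
    simp
  have g0 : (G.length * G.length) * (4 * (G.length * G.length) + 2) ≤
      (sz G * sz G) * (4 * (sz G * sz G) + 2) := by
    have := Nat.mul_le_mul hn hn
    exact Nat.mul_le_mul this (by omega)
  have g1 : (2 * G.length) * (4 * (2 * G.length) + 2) ≤ (2 * sz G) * (4 * (2 * sz G) + 2) :=
    Nat.mul_le_mul (by omega) (by omega)
  have e0 : (sz G * sz G) * (4 * (sz G * sz G) + 2) = 4 * sz G ^ 4 + 2 * sz G ^ 2 := by ring
  have e1 : (2 * sz G) * (4 * (2 * sz G) + 2) = 16 * sz G ^ 2 + 4 * sz G := by ring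
  rw [hev, sz_pair, sz_pair, sz_pair]
  omega

theorem exists_vf_iff (G : List (List ℕ)) :
    (IsDigraph G ∧ HasPair G) ↔ ∃ w : Crt, vf (G, w) = true :=
  ⟨fun h => complete h.1 h.2, fun ⟨_, h⟩ => sound h⟩

theorem inNPP_pair : InNPP (fun G : List (List ℕ) => IsDigraph G ∧ HasPair G) := by
  refine inNPP_of (R := vf) poly_vf cb ?_
  intro G
  rw [exists_vf_iff]
  exact exists_congr fun w => ⟨fun h => ⟨short h, h⟩, fun h => h.2⟩

/-! ### The reduction -/

section

variable {α : Type} [TEnc α]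

theorem upoly_cR {m : α → ℕ} (hm : UPoly m) : UPoly (fun a => cR (m a)) :=
  UPoly.mul (UPoly.mul (UPoly.const 3) hm) (UPoly.mul (UPoly.const 6) hm)

theorem poly_lit {φ : α → Cnf} {c : α → ℕ} (hφ : Poly φ) (hc : Poly c) :
    Poly (fun a => lit (φ a) (c a)) := by
  unfold lit
  have g : Poly (fun a => (φ a).getD (c a / 3) ((true, 0), (true, 0), (true, 0))) :=
    Poly.getD hφ (Poly.div hc (Poly.const 3)) (Poly.const _)
  have h3 : Poly (fun a => c a % 3) := Poly.mod hc (Poly.const 3)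
  exact Poly.ite (Poly.decide_eq h3 (Poly.const 0)) (Poly.fst g)
    (Poly.ite (Poly.decide_eq h3 (Poly.const 1)) (Poly.fst (Poly.snd g))
      (Poly.snd (Poly.snd g)))

theorem poly_nxc {c : α → ℕ} (hc : Poly c) : Poly (fun a => nxc (c a)) :=
  Poly.ite (Poly.decide_eq (Poly.mod hc (Poly.const 3)) (Poly.const 2))
    (Poly.sub hc (Poly.const 2)) (Poly.add hc (Poly.const 1))

theorem poly_nx {m p : α → ℕ} (hm : Poly m) (hp : Poly p) : Poly (fun a => nx (m a) (p a)) := by
  have h6 : Poly (fun a => 6 * m a) := Poly.mul (Poly.const 6) hm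
  have hp1 : Poly (fun a => p a + 1) := Poly.add hp (Poly.const 1)
  exact Poly.ite (Poly.decide_eq (Poly.mod hp1 h6) (Poly.const 0)) (Poly.sub hp1 h6) hp1

theorem poly_cof {m p : α → ℕ} (hm : Poly m) (hp : Poly p) : Poly (fun a => cof (m a) (p a)) :=
  Poly.div (Poly.mod hp (Poly.mul (Poly.const 6) hm)) (Poly.const 2)

theorem poly_cell {φ : α → Cnf} {c : α → ℕ} (hφ : Poly φ) (hc : Poly c) :
    Poly (fun a => cell (φ a) (c a)) :=
  Poly.add (Poly.mul (Poly.snd (poly_lit hφ hc)) (Poly.mul (Poly.const 6) (Poly.length hφ)))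
    (Poly.mul (Poly.const 2) hc)

theorem poly_cn {φ : α → Cnf} {c : α → ℕ} (hφ : Poly φ) (hc : Poly c) :
    Poly (fun a => cn (φ a) (c a)) :=
  Poly.add (poly_cell hφ hc) (Poly.ite (Poly.decide_eq (Poly.fst (poly_lit hφ hc))
    (Poly.const true)) (Poly.const 1) (Poly.const 0))

theorem poly_out {φ : α → Cnf} {v : α → ℕ} (hφ : Poly φ) (hv : Poly v) :
    Poly (fun a => out (φ a) (v a)) := by
  have hm : UPoly (fun a => (φ a).length) := UPoly.length hφ
  have hR := upoly_cR hm
  have f1 : Poly (fun y : α × ℕ => φ y.1) := hφ.comp (Poly.fst Poly.id)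
  have f2 : Poly (fun y : α × ℕ => y.2) := Poly.snd Poly.id
  have h4 : Poly (fun y : α × ℕ => 4 + y.2) := Poly.add (Poly.const 4) f2
  have h4R : Poly (fun a => 4 + cR (φ a).length) := Poly.add (Poly.const 4) hR.toPoly
  have hv4 : Poly (fun a => v a - 4) := Poly.sub hv (Poly.const 4)
  have hvR : Poly (fun a => v a - 4 - cR (φ a).length) := Poly.sub hv4 hR.toPoly
  have hcof : Poly (fun a => cof (φ a).length (v a - 4 - cR (φ a).length)) :=
    poly_cof hm.toPoly hvR
  unfold out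
  refine Poly.ite (Poly.decide_lt hv (Poly.const 4)) (Poly.append ?_ ?_)
    (Poly.ite (Poly.decide_lt hv h4R) ?_ (Poly.ite (Poly.decide_eq hvR (poly_cn hφ hcof)) ?_
      (Poly.const _)))
  · exact Poly.filter (p := fun a w => !decide (w = v a)) (Poly.const (List.range 4))
      (Poly.not (Poly.decide_eq f2 (hv.comp (Poly.fst Poly.id))))
  · refine Poly.ite (Poly.decide_eq hv (Poly.const 0)) ?_
      (Poly.ite (Poly.decide_eq hv (Poly.const 1)) ?_ (Poly.const _))
    · exact Poly.map (F := fun _ p => 4 + p) hR.range h4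
    · refine Poly.map (F := fun _ p => 4 + p) (Poly.filter
        (p := fun a p => !decide (p = cell (φ a) (cof (φ a).length p))) hR.range ?_) h4
      exact Poly.not (Poly.decide_eq f2 (poly_cell f1 (poly_cof (Poly.length f1) f2)))
  · exact Poly.cons (Poly.const 0) (Poly.cons (Poly.add h4R hv4) (Poly.cons
      (Poly.add h4R (poly_nx hm.toPoly hv4)) (Poly.const [])))
  · exact Poly.cons (Poly.const 0) (Poly.cons (Poly.add (Poly.const 4)
      (poly_cell hφ (poly_nxc hcof))) (Poly.const []))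

end

theorem poly_red : Poly red := by
  have hm : UPoly (fun φ : Cnf => φ.length) := UPoly.length Poly.id
  have hN : UPoly (fun φ : Cnf => 4 + 2 * cR φ.length) :=
    UPoly.add (UPoly.const 4) (UPoly.mul (UPoly.const 2) (upoly_cR hm))
  exact Poly.map (F := fun φ v => out φ v) hN.range
    (poly_out (Poly.fst Poly.id) (Poly.snd Poly.id))

theorem hard : NPHardOn IsDigraph HasPair :=
  npHardOn_of hardPr_SAT3b poly_red (fun _ h => isDigraph_red h.2)
    (fun _ h => ⟨hasPair_of_sat h.2, sat_of_hasPair h.2⟩)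

theorem decide_iff :
    (∃ f : List Bool → List Bool, PolyTime f ∧
      ∀ G : List (List ℕ), IsDigraph G → (f (bits G) = [true] ↔ HasPair G)) ↔
      ∀ L : Set (List Bool), InNP L → InP L := by
  constructor
  · rintro ⟨f, hf, hfd⟩ L hL
    obtain ⟨g, hg, hgp, hgL⟩ := hard L hL
    refine ⟨fun x => f (bits (g x)),
      H642R2.TMSim.polyTime_comp (g := f) (f := fun x => bits (g x)) hf hg, fun x => ?_⟩
    rw [hgL x]
    exact (hfd _ (hgp x)).symm
  · intro h
    obtain ⟨V, hV, hV'⟩ := h _ inNPP_pair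
    refine ⟨V, hV, fun G hG => ?_⟩
    rw [← hV' (bits G)]
    constructor
    · rintro ⟨G', hG', -, hp⟩
      rw [bits_injective hG'] at hp
      exact hp
    · intro hp
      exact ⟨G, rfl, hG, hp⟩

end Pool.Agent.NPC.V8H41AS
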