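import Pool.Agent.V8H41.AS.Defs

/-!
# Forward antidirected trails and the bipartite representation
-/

namespace Pool.Agent.V8H41.AS

/-- The bipartite representation. -/
def BG (A : Set (ℕ × ℕ)) : SimpleGraph (ℕ ⊕ ℕ) where
  Adj a b := (∃ v w, (v, w) ∈ A ∧ a = Sum.inl v ∧ b = Sum.inr w) ∨
    ∃ v w, (v, w) ∈ A ∧ b = Sum.inl v ∧ a = Sum.inr w
  symm := ⟨by
    rintro a b (⟨v, w, h, h1, h2⟩ | ⟨v, w, h, h1, h2⟩)
    · exact Or.inr ⟨v, w, h, h1, h2⟩
    · exact Or.inl ⟨v, w, h, h1, h2⟩⟩
  loopless := ⟨by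
    rintro a (⟨v, w, h, h1, h2⟩ | ⟨v, w, h, h1, h2⟩)
    · rw [h1] at h2
      cases h2
    · rw [h1] at h2
      cases h2⟩

theorem adj_lr {A : Set (ℕ × ℕ)} {v w : ℕ} : (BG A).Adj (Sum.inl v) (Sum.inr w) ↔ (v, w) ∈ A := by
  constructor
  · rintro (⟨v', w', h, h1, h2⟩ | ⟨v', w', h, h1, h2⟩)
    · cases h1
      cases h2
      exact h
    · cases h1
  · intro h
    exact Or.inl ⟨v, w, h, rfl, rfl⟩

theorem adj_rl {A : Set (ℕ × ℕ)} {v w : ℕ} : (BG A).Adj (Sum.inr w) (Sum.inl v) ↔ (v, w) ∈ A := by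
  rw [SimpleGraph.adj_comm, adj_lr]

theorem not_adj_ll {A : Set (ℕ × ℕ)} {v w : ℕ} : ¬ (BG A).Adj (Sum.inl v) (Sum.inl w) := by
  rintro (⟨v', w', h, h1, h2⟩ | ⟨v', w', h, h1, h2⟩)
  · cases h2
  · cases h2

theorem not_adj_rr {A : Set (ℕ × ℕ)} {v w : ℕ} : ¬ (BG A).Adj (Sum.inr v) (Sum.inr w) := by
  rintro (⟨v', w', h, h1, h2⟩ | ⟨v', w', h, h1, h2⟩)
  · cases h1
  · cases h1

/-- The closed set lemma. -/
theorem FwdTrail.closed {A : Set (ℕ × ℕ)} {P Q : Set ℕ} (h : ∀ v w, (v, w) ∈ A → (v ∈ P ↔ w ∈ Q))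
    {x y : ℕ} (ht : FwdTrail A x y) (hx : x ∈ P) : y ∈ Q := by
  obtain ⟨k, v, h0, h1, hA, -⟩ := ht
  have key : ∀ i, i ≤ k → v (2 * i) ∈ P ∧ v (2 * i + 1) ∈ Q := by
    intro i
    induction i with
    | zero =>
      intro _
      have h2 := hA 0 (by omega)
      unfold arcAt at h2
      simp only [Nat.zero_mod, if_true] at h2
      refine ⟨by simpa [h0] using hx, ?_⟩
      exact (h _ _ h2).1 (by simpa [h0] using hx)
    | succ i ih =>
      intro hi
      have h2 := (ih (by omega)).2
      have h3 := hA (2 * i + 1) (by omega)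
      have h4 := hA (2 * i + 2) (by omega)
      unfold arcAt at h3 h4
      rw [if_neg (by omega)] at h3
      rw [if_pos (by omega)] at h4
      have h5 : v (2 * i + 1 + 1) ∈ P := (h _ _ h3).2 h2
      exact ⟨h5, (h _ _ h4).1 h5⟩
  rw [← h1]
  exact (key k le_rfl).2

theorem reachable_of_trail {A : Set (ℕ × ℕ)} {x y : ℕ} (ht : FwdTrail A x y) :
    (BG A).Reachable (Sum.inl x) (Sum.inr y) := by
  refine FwdTrail.closed (P := {v | (BG A).Reachable (Sum.inl x) (Sum.inl v)})
    (Q := {v | (BG A).Reachable (Sum.inl x) (Sum.inr v)}) ?_ ht (SimpleGraph.Reachable.refl _)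
  intro v w hvw
  have hadj : (BG A).Adj (Sum.inl v) (Sum.inr w) := adj_lr.2 hvw
  exact ⟨fun h => h.trans hadj.reachable, fun h => h.trans hadj.symm.reachable⟩

/-- The vertex below a vertex of the bipartite representation. -/
def und : ℕ ⊕ ℕ → ℕ := Sum.elim id id

theorem trail_of_reachable {A : Set (ℕ × ℕ)} {x y : ℕ}
    (h : (BG A).Reachable (Sum.inl x) (Sum.inr y)) : FwdTrail A x y := by
  classical
  obtain ⟨p0⟩ := h
  obtain ⟨p, hp⟩ := p0.toPath
  have hpar : ∀ i, i ≤ p.length → (i % 2 = 0 → p.getVert i = Sum.inl (und (p.getVert i))) ∧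
      (i % 2 = 1 → p.getVert i = Sum.inr (und (p.getVert i))) := by
    intro i
    induction i with
    | zero =>
      intro _
      refine ⟨fun _ => ?_, fun h => by omega⟩
      rw [SimpleGraph.Walk.getVert_zero]
      rfl
    | succ i ih =>
      intro hi
      have hadj := p.adj_getVert_succ (i := i) (by omega)
      obtain ⟨h1, h2⟩ := ih (by omega)
      refine ⟨fun h => ?_, fun h => ?_⟩
      · have h3 := h2 (by omega)
        rw [h3] at hadj
        cases hc : p.getVert (i + 1) with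
        | inl a => rfl
        | inr a =>
          rw [hc] at hadj
          exact absurd hadj not_adj_rr
      · have h3 := h1 (by omega)
        rw [h3] at hadj
        cases hc : p.getVert (i + 1) with
        | inr a => rfl
        | inl a =>
          rw [hc] at hadj
          exact absurd hadj not_adj_ll
  have hlen : p.length % 2 = 1 := by
    by_contra hcon
    have h1 := (hpar p.length le_rfl).1 (by omega)
    rw [SimpleGraph.Walk.getVert_length] at h1
    cases h1
  have hk : 2 * (p.length / 2) + 1 = p.length := by omega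
  refine ⟨p.length / 2, fun i => und (p.getVert i), ?_, ?_, ?_, ?_⟩
  · dsimp only
    rw [SimpleGraph.Walk.getVert_zero]
    rfl
  · dsimp only
    rw [hk, SimpleGraph.Walk.getVert_length]
    rfl
  · intro i hi
    have hadj := p.adj_getVert_succ (i := i) (by omega)
    unfold arcAt
    split_ifs with h
    · have h1 := (hpar i (by omega)).1 h
      have h2 := (hpar (i + 1) (by omega)).2 (by omega)
      rw [h1, h2] at hadj
      exact adj_lr.1 hadj
    · have h1 := (hpar i (by omega)).2 (by omega)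
      have h2 := (hpar (i + 1) (by omega)).1 (by omega)
      rw [h1, h2] at hadj
      exact adj_rl.1 hadj
  · have inj : ∀ i j, i ≤ p.length → j ≤ p.length → i % 2 = j % 2 →
        und (p.getVert i) = und (p.getVert j) → i = j := by
      intro i j hi hj hij he
      apply hp.getVert_injOn hi hj
      rcases Nat.mod_two_eq_zero_or_one i with h | h
      · rw [(hpar i hi).1 h, (hpar j hj).1 (by omega), he]
      · rw [(hpar i hi).2 h, (hpar j hj).2 (by omega), he]
    intro i hi j hj he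
    unfold arcAt at he
    split_ifs at he with h1 h2 h2
    · exact inj i j (by omega) (by omega) (by omega) (Prod.mk.inj he).1
    · have e1 := inj i (j + 1) (by omega) (by omega) (by omega) (Prod.mk.inj he).1
      have e2 := inj (i + 1) j (by omega) (by omega) (by omega) (Prod.mk.inj he).2
      omega
    · have e1 := inj (i + 1) j (by omega) (by omega) (by omega) (Prod.mk.inj he).1
      have e2 := inj i (j + 1) (by omega) (by omega) (by omega) (Prod.mk.inj he).2
      omega
    · exact inj i j (by omega) (by omega) (by omega) (Prod.mk.inj he).2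

theorem trail_iff {A : Set (ℕ × ℕ)} {x y : ℕ} :
    FwdTrail A x y ↔ (BG A).Reachable (Sum.inl x) (Sum.inr y) :=
  ⟨reachable_of_trail, trail_of_reachable⟩

/-- A digraph is antistrong if its bipartite representation is connected. -/
theorem antistrong_of {n : ℕ} {A : Set (ℕ × ℕ)} (hn : 3 ≤ n)
    (h1 : ∀ v < n, (BG A).Reachable (Sum.inl v) (Sum.inl 0))
    (h2 : ∀ v < n, (BG A).Reachable (Sum.inr v) (Sum.inl 0)) : Antistrong n A :=
  ⟨hn, fun x hx y hy _ => trail_of_reachable ((h1 x hx).trans (h2 y hy).symm)⟩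

theorem Antistrong.left {n : ℕ} {A : Set (ℕ × ℕ)} (h : Antistrong n A) {v : ℕ} (hv : v < n) :
    (BG A).Reachable (Sum.inl v) (Sum.inl 0) := by
  obtain ⟨hn, h⟩ := h
  obtain ⟨y, hy, hy0, hyv⟩ : ∃ y < n, y ≠ 0 ∧ y ≠ v := by
    by_cases h1 : v = 1
    · exact ⟨2, by omega, by omega, by omega⟩
    · exact ⟨1, by omega, by omega, by omega⟩
  exact (reachable_of_trail (h v hv y hy (Ne.symm hyv))).trans
    (reachable_of_trail (h 0 (by omega) y hy (Ne.symm hy0))).symm

theorem Antistrong.right {n : ℕ} {A : Set (ℕ × ℕ)} (h : Antistrong n A) {v : ℕ} (hv : v < n) :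
    (BG A).Reachable (Sum.inr v) (Sum.inl 0) := by
  have hn := h.1
  obtain ⟨y, hy, hyv⟩ : ∃ y < n, y ≠ v := by
    by_cases h1 : v = 1
    · exact ⟨2, by omega, by omega⟩
    · exact ⟨1, by omega, by omega⟩
  exact (reachable_of_trail (h.2 y hy v hv hyv)).symm.trans (h.left hy)

end Pool.Agent.V8H41.AS
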